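import Pool.Agent.ACS.Pub
import Pool.Agent.ACP.Circ
import Pool.Agent.ACP.View
import Pool.Agent.ACP.Local

/-!
# Closure properties of circuits with symmetric gates; parity of many bits
-/

set_option autoImplicit false

namespace Pool.Agent.ACS

open Pool.Agent.ACP

variable {X Y : Type}

theorem AC_mono_B {B B' : Set (X → Bool)} {s d : ℕ} (h : B ⊆ B') {f : X → Bool}
    (hf : f ∈ AC B s d) : f ∈ AC B' s d := by
  induction d generalizing f with
  | zero => exact h hf
  | succ d ih =>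
    obtain ⟨t, g, ht, hg, hfg⟩ := hf
    exact ⟨t, g, ht, fun i => ih (hg i), hfg⟩

/-- Substitution of circuits for the basic functions. -/
theorem SyAC_subst {B : Set (X → Bool)} {B' : Set (Y → Bool)} {s d d' m : ℕ} (hs : 1 ≤ s)
    (φ : Y → X) (hB : ∀ f ∈ B, (fun y => f (φ y)) ∈ AC B' s d') {f : X → Bool}
    (hf : f ∈ SyAC B s d m) : (fun y => f (φ y)) ∈ SyAC B' s (d' + d) m := by
  obtain ⟨t, h, ψ, g, ht, hh, hg, hf⟩ := hf
  refine ⟨t, fun i l y => h i l (φ y), ψ, fun i y => g i (φ y), ht, fun i l => ?_,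
    fun i y => hg i (φ y), ?_⟩
  · refine AC_subst (d' := d') φ ?_ (hh i l)
    rintro u (hu | ⟨j, hj, rfl | rfl⟩)
    · exact AC_mono_B Set.subset_union_left (hB u hu)
    · exact AC_mono_d hs (Nat.zero_le d') (Or.inr ⟨j, hj, Or.inl rfl⟩)
    · exact AC_mono_d hs (Nat.zero_le d') (Or.inr ⟨j, hj, Or.inr rfl⟩)
  · refine AC_subst (d' := d') φ ?_ hf
    rintro u (hu | ⟨j, rfl | rfl⟩)
    · exact AC_mono_B Set.subset_union_left (hB u hu)
    · exact AC_mono_d hs (Nat.zero_le d') (Or.inr ⟨j, Or.inl rfl⟩)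
    · exact AC_mono_d hs (Nat.zero_le d') (Or.inr ⟨j, Or.inr rfl⟩)

theorem SyAC_mono_s {B : Set (X → Bool)} {s s' d m : ℕ} (h : s ≤ s') {f : X → Bool}
    (hf : f ∈ SyAC B s d m) : f ∈ SyAC B s' d m := by
  obtain ⟨t, u, ψ, g, ht, hh, hg, hf⟩ := hf
  exact ⟨t, u, ψ, g, fun i => (ht i).trans h, fun i l => AC_mono_s h (hh i l), hg,
    AC_mono_s h hf⟩

/-- Constant-depth circuits are circuits with symmetric gates. -/
theorem AC_sub_SyAC {B : Set (X → Bool)} {s d : ℕ} (m : ℕ) {f : X → Bool} (hf : f ∈ AC B s d) :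
    f ∈ SyAC B s d m :=
  ⟨fun _ => 0, fun _ l => l.elim0, fun _ _ => false, fun _ _ => false, fun _ => Nat.zero_le _,
    fun _ l => l.elim0, fun _ _ => rfl, AC_mono_B Set.subset_union_left hf⟩

/-- A circuit with symmetric gates evaluated on the view. -/
theorem view_SyAC {n k w s d m : ℕ} (hs : 1 ≤ s) (E : Fin (k + 1) → Fin (n + 1) → Slot w)
    (hE : ∀ i, Function.Injective (E i)) (a : Fin (k + 1) → Slot w → Bool) (z : Bool)
    (A : (PK k w ⊕ CT k w → Bool) → Bool) (hA : A ∈ SyAC (lits _) s d m) :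
    (fun x => A (view E a x z)) ∈ SyAC (SDT k (Fin (n + 1)) 0 1) s d m := by
  have h := SyAC_subst (B' := SDT k (Fin (n + 1)) 0 1) (d' := 0) hs
    (fun x : Inp k (Fin (n + 1)) => view E a x z) ?_ hA
  · rwa [zero_add] at h
  · rintro f (⟨p, rfl⟩ | ⟨p, rfl⟩ | ⟨b, rfl⟩)
    · exact vw_pos E hE a z p
    · exact vw_not 0 (vw_pos E hE a z p)
    · exact vw_const 0 b

theorem advL_SyAC {k w s d m : ℕ} (h2 : 4 ≤ s) (A : (PK k w ⊕ CL k w → Bool) → Bool)
    (hA : A ∈ SyAC (lits _) s d m) : advL A ∈ SyAC (lits _) s (1 + d) m := by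
  refine SyAC_subst (B' := lits (PK k w ⊕ CT k w)) (s := s) (d' := 1) (by omega)
    (fun (y : PK k w ⊕ CT k w → Bool) =>
      (Sum.elim (fun p => y (Sum.inl p)) (toL y) : PK k w ⊕ CL k w → Bool))
    (B := lits (PK k w ⊕ CL k w)) ?_ hA
  have hlit : ∀ q : PK k w ⊕ CT k w, (fun x : PK k w ⊕ CT k w → Bool => x q) ∈
      AC (lits _) s 0 := fun q => Or.inl ⟨q, rfl⟩
  have key : ∀ p : PK k w ⊕ CL k w, (fun y : PK k w ⊕ CT k w → Bool =>
      (Sum.elim (fun p => y (Sum.inl p)) (toL y) : PK k w ⊕ CL k w → Bool) p) ∈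
        AC (lits _) s 1 := by
    rintro (p | ⟨i, u, v⟩ | u | u)
    · exact AC_mono_d (by omega) (Nat.zero_le 1) (hlit _)
    · exact AC_and2 (by omega) (hlit _) (hlit _)
    · exact AC_mono_d (by omega) (Nat.zero_le 1) (hlit _)
    · exact AC_and2 (by omega) (hlit _) (hlit _)
  rintro f (⟨p, rfl⟩ | ⟨p, rfl⟩ | ⟨b, rfl⟩)
  · exact key p
  · exact AC_not lits_not (key p)
  · exact AC_mono_d (d := 0) (by omega) (Nat.zero_le 1) (Or.inr (Or.inr ⟨b, rfl⟩))

/-! ### Parity of `a * b` bits -/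

/-- `-1` to the power of a bit -/
private def sg (b : Bool) : ℤ := if b = true then -1 else 1

private theorem sg_inj {a b : Bool} (h : sg a = sg b) : a = b := by
  cases a <;> cases b <;> simp [sg] at h ⊢

private theorem sg_par : ∀ (m : ℕ) (c : Fin m → Bool), sg (par m c) = ∏ i, sg (c i)
  | 0, c => by simp [par, sg]
  | m + 1, c => by
      rw [Fin.prod_univ_succ, ← sg_par m (fun i => c i.succ), par]
      cases c 0 <;> cases par m (fun i => c i.succ) <;> simp [sg]

theorem par_mul (a b : ℕ) (c : Fin (a * b) → Bool) :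
    par (a * b) c = par a (fun i => par b (fun j => c (finProdFinEquiv (i, j)))) := by
  apply sg_inj
  rw [sg_par, sg_par]
  simp_rw [sg_par]
  rw [← Fintype.prod_prod_type' (fun i j => sg (c (finProdFinEquiv (i, j))))]
  exact (Fintype.prod_equiv finProdFinEquiv _ _ fun _ => rfl).symm

theorem par_cast {m m' : ℕ} (h : m = m') (c : Fin m → Bool) :
    par m c = par m' (fun i => c (Fin.cast h.symm i)) := by
  subst h
  rfl

theorem AC_par2 {B : Set (X → Bool)} {s d : ℕ} (hB : ∀ f ∈ B, (fun x => !f x) ∈ B) {m a : ℕ}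
    (hm : m = a * a) (h1 : a ≤ s) (h2 : 2 ^ a ≤ s) (g : Fin m → X → Bool)
    (hg : ∀ i, g i ∈ AC B s d) : (fun x => par m (fun i => g i x)) ∈ AC B s (d + 4) := by
  have h := AC_par (d := d + 2) hB a h1 h2
    (fun i x => par a (fun j => g (Fin.cast hm.symm (finProdFinEquiv (i, j))) x)) (fun i =>
      AC_par (d := d) hB a h1 h2 (fun j => g (Fin.cast hm.symm (finProdFinEquiv (i, j))))
        fun j => hg _)
  have e : (fun x => par m (fun i => g i x)) = fun x => par a (fun i => par a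
      (fun j => g (Fin.cast hm.symm (finProdFinEquiv (i, j))) x)) := by
    funext x
    rw [par_cast hm, par_mul]
  rw [e]
  exact h

private theorem lit_AC {ι : Type} {s : ℕ} (hs : 1 ≤ s) (d : ℕ) (i : ι) :
    (fun x : ι → Bool => x i) ∈ AC (lits ι) s d :=
  AC_mono_d hs (Nat.zero_le d) (show _ ∈ lits ι from Or.inl ⟨i, rfl⟩)

theorem decr_AC2 {k w s a : ℕ} (h2 : 4 ≤ s) (h3 : 2 ^ w ≤ s) (hk : k + 1 = a * a) (h4 : a ≤ s)
    (h5 : 2 ^ a ≤ s) :
    (decr : (SK k w ⊕ CT k w → Bool) → Bool) ∈ AC (lits _) s 20 := by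
  classical
  have hc : Fintype.card (Slot w) ≤ s := by simpa using h3
  have hs1 : 1 ≤ s := by omega
  have hs2 : 2 ≤ s := by omega
  have hl : ∀ (d : ℕ) (i : SK k w ⊕ CT k w),
      (fun x : SK k w ⊕ CT k w → Bool => x i) ∈ AC (lits _) s d := fun d i => lit_AC hs1 d i
  refine AC_mono_d (d := 8) (by omega) (by omega) ?_
  refine AC_xor (d := 6) lits_not hs2 (hl _ _) ?_
  refine AC_par2 (d := 2) lits_not hk h4 h5
    (fun i x => decide (∃ u : Slot w, (x (Sum.inl (i, u)) && x (Sum.inr (Sum.inl (i, u)))) = true))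
    (fun i => ?_)
  have e : ∀ u : Slot w, (fun x : SK k w ⊕ CT k w → Bool =>
      x (Sum.inl (i, u)) && x (Sum.inr (Sum.inl (i, u)))) ∈ AC (lits _) s 1 := fun u =>
    AC_and2 (d := 0) hs2 (hl 0 _) (hl 0 _)
  exact Circ_or_iff (ι := Slot w) hc _ e (fun x => decide_eq_true_iff)

theorem decl_AC2 {k w s a : ℕ} (h2 : 4 ≤ s) (h3 : 2 ^ w ≤ s) (hk : k + 1 = a * a) (h4 : a ≤ s)
    (h5 : 2 ^ a ≤ s) :
    (decl : (SK k w ⊕ CL k w → Bool) → Bool) ∈ AC (lits _) s 21 := by
  classical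
  have h := AC_subst (B' := lits (SK k w ⊕ CL k w)) (s := s) (d' := 1)
    (fun (x : SK k w ⊕ CL k w → Bool) =>
      (Sum.elim (fun p => x (Sum.inl p)) (toC (fun p => x (Sum.inr p))) : SK k w ⊕ CT k w → Bool))
    (B := lits (SK k w ⊕ CT k w)) ?_ (decr_AC2 h2 h3 hk h4 h5)
  · exact h
  · have hslot : Fintype.card (Slot w) ≤ s := by
      rw [Fintype.card_fun, Fintype.card_bool, Fintype.card_fin]; exact h3
    have hlit : ∀ q : SK k w ⊕ CL k w, (fun x : SK k w ⊕ CL k w → Bool => x q) ∈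
        AC (lits _) s 0 := fun q => Or.inl ⟨q, rfl⟩
    have key : ∀ p : SK k w ⊕ CT k w, (fun x : SK k w ⊕ CL k w → Bool =>
        (Sum.elim (fun p => x (Sum.inl p)) (toC (fun p => x (Sum.inr p))) :
          SK k w ⊕ CT k w → Bool) p) ∈ AC (lits _) s 1 := by
      rintro (p | ⟨i, u⟩ | _)
      · exact AC_mono_d (by omega) (Nat.zero_le 1) (hlit _)
      · by_cases hi : (i : ℕ) < k
        · have := AC_or (s := s) (d := 0) (B := lits (SK k w ⊕ CL k w)) hslot
            (fun (v : Slot w) (x : SK k w ⊕ CL k w → Bool) =>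
              x (Sum.inr (Sum.inl (⟨i, hi⟩, u, v)))) (fun v => hlit _)
          have e : (fun x : SK k w ⊕ CL k w → Bool =>
              (Sum.elim (fun p => x (Sum.inl p)) (toC (fun p => x (Sum.inr p))) :
                SK k w ⊕ CT k w → Bool) (Sum.inr (Sum.inl (i, u)))) = (fun x =>
              decide (∃ v : Slot w, x (Sum.inr (Sum.inl (⟨i, hi⟩, u, v))) = true)) := by
            funext x
            simp only [Sum.elim_inr, toC, dif_pos hi]
          rw [e]
          convert this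
        · have e : (fun x : SK k w ⊕ CL k w → Bool =>
              (Sum.elim (fun p => x (Sum.inl p)) (toC (fun p => x (Sum.inr p))) :
                SK k w ⊕ CT k w → Bool) (Sum.inr (Sum.inl (i, u)))) = (fun x =>
              x (Sum.inr (Sum.inr (Sum.inl u)))) := by
            funext x
            simp only [Sum.elim_inr, toC, dif_neg hi]
          rw [e]
          exact AC_mono_d (by omega) (Nat.zero_le 1) (hlit _)
      · have := AC_or (s := s) (d := 0) (B := lits (SK k w ⊕ CL k w)) hslot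
          (fun (v : Slot w) (x : SK k w ⊕ CL k w → Bool) =>
            x (Sum.inr (Sum.inr (Sum.inr v)))) (fun v => hlit _)
        have e : (fun x : SK k w ⊕ CL k w → Bool =>
            (Sum.elim (fun p => x (Sum.inl p)) (toC (fun p => x (Sum.inr p))) :
              SK k w ⊕ CT k w → Bool) (Sum.inr (Sum.inr ()))) = (fun x =>
            decide (∃ v : Slot w, x (Sum.inr (Sum.inr (Sum.inr v))) = true)) := by
          funext x
          simp only [Sum.elim_inr, toC]
        refine e ▸ ?_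
        convert this
    rintro f (⟨p, rfl⟩ | ⟨p, rfl⟩ | ⟨b, rfl⟩)
    · exact key p
    · exact AC_not lits_not (key p)
    · exact AC_mono_d (d := 0) (by omega) (Nat.zero_le 1) (Or.inr (Or.inr ⟨b, rfl⟩))

end Pool.Agent.ACS
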