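import Mathlib

/-!
# The cube inequality for products of functions that do not depend on one of the variables
-/

set_option autoImplicit false

namespace Pool.Agent.ACS

noncomputable section

/-- the mean value over a finite type -/
def Ex {α : Type} [Fintype α] (f : α → ℝ) : ℝ := (∑ x, f x) / Fintype.card α

section Ex

variable {α β : Type} [Fintype α] [Fintype β]

theorem Ex_mono {f g : α → ℝ} (h : ∀ x, f x ≤ g x) : Ex f ≤ Ex g := by
  unfold Ex
  exact div_le_div_of_nonneg_right (Finset.sum_le_sum fun x _ => h x) (Nat.cast_nonneg _)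

theorem Ex_const [Nonempty α] (c : ℝ) : Ex (fun _ : α => c) = c := by
  unfold Ex
  rw [Finset.sum_const, Finset.card_univ, nsmul_eq_mul]
  have : (Fintype.card α : ℝ) ≠ 0 := by exact_mod_cast Fintype.card_ne_zero
  field_simp

theorem Ex_sum {ι : Type} (s : Finset ι) (f : ι → α → ℝ) :
    Ex (fun x => ∑ i ∈ s, f i x) = ∑ i ∈ s, Ex (f i) := by
  unfold Ex
  rw [Finset.sum_comm, Finset.sum_div]

theorem Ex_mul_left (c : ℝ) (f : α → ℝ) : Ex (fun x => c * f x) = c * Ex f := by
  unfold Ex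
  rw [← Finset.mul_sum, mul_div_assoc]

theorem Ex_mul_right (c : ℝ) (f : α → ℝ) : Ex (fun x => f x * c) = Ex f * c := by
  unfold Ex
  rw [← Finset.sum_mul, div_mul_eq_mul_div]

theorem Ex_neg (f : α → ℝ) : Ex (fun x => - f x) = - Ex f := by
  unfold Ex
  rw [Finset.sum_neg_distrib, neg_div]

theorem Ex_congr {f g : α → ℝ} (h : ∀ x, f x = g x) : Ex f = Ex g := by
  rw [show f = g from funext h]

theorem Ex_comm (f : α → β → ℝ) :
    Ex (fun x => Ex (fun y => f x y)) = Ex (fun y => Ex (fun x => f x y)) := by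
  unfold Ex
  rw [← Finset.sum_div, ← Finset.sum_div, Finset.sum_comm, div_div, div_div, mul_comm]

theorem Ex_prod (f : α × β → ℝ) : Ex f = Ex (fun x => Ex (fun y => f (x, y))) := by
  unfold Ex
  rw [← Finset.sum_div, Fintype.sum_prod_type, Fintype.card_prod, div_div]
  push_cast
  rw [mul_comm (Fintype.card α : ℝ)]

theorem Ex_equiv (e : α ≃ β) (f : β → ℝ) : Ex (fun x => f (e x)) = Ex f := by
  unfold Ex
  rw [Equiv.sum_comp e f, Fintype.card_congr e]

theorem Ex_nonneg {f : α → ℝ} (h : ∀ x, 0 ≤ f x) : 0 ≤ Ex f :=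
  div_nonneg (Finset.sum_nonneg fun x _ => h x) (Nat.cast_nonneg _)

theorem abs_Ex_le (f : α → ℝ) : |Ex f| ≤ Ex (fun x => |f x|) := by
  unfold Ex
  rw [abs_div, abs_of_nonneg (a := (Fintype.card α : ℝ)) (Nat.cast_nonneg _)]
  exact div_le_div_of_nonneg_right (Finset.abs_sum_le_sum_abs _ _) (Nat.cast_nonneg _)

theorem Ex_mul (f : α → ℝ) (g : β → ℝ) :
    Ex f * Ex g = Ex (fun x => Ex (fun y => f x * g y)) := by
  rw [← Ex_mul_right]
  exact Ex_congr fun x => (Ex_mul_left (f x) g).symm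

theorem Ex_sq [Nonempty α] (f : α → ℝ) : Ex f ^ 2 ≤ Ex (fun x => f x ^ 2) := by
  have h : 0 ≤ Ex (fun x => (f x - Ex f) ^ 2) := Ex_nonneg fun x => sq_nonneg _
  have h2 : Ex (fun x => (f x - Ex f) ^ 2) = Ex (fun x => f x ^ 2) - Ex f ^ 2 := by
    have h3 : ∀ x, (f x - Ex f) ^ 2 = f x ^ 2 + ((-2 * Ex f) * f x + Ex f ^ 2) := fun x => by ring
    have h4 : ∀ (u v : α → ℝ), Ex (fun x => u x + v x) = Ex u + Ex v := by
      intro u v
      unfold Ex
      rw [Finset.sum_add_distrib, add_div]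
    rw [Ex_congr h3, h4, h4, Ex_mul_left, Ex_const]
    ring
  rw [h2] at h
  linarith

theorem Ex_pow [Nonempty α] (r : ℕ) : ∀ f : α → ℝ,
    Ex f ^ (2 ^ r) ≤ Ex (fun x => f x ^ (2 ^ r)) := by
  induction r with
  | zero => intro f; simp
  | succ r ih =>
    intro f
    rw [pow_succ' 2 r]
    calc Ex f ^ (2 * 2 ^ r) = (Ex f ^ 2) ^ (2 ^ r) := by rw [pow_mul]
      _ ≤ (Ex (fun x => f x ^ 2)) ^ (2 ^ r) := pow_le_pow_left₀ (sq_nonneg _) (Ex_sq f) _
      _ ≤ Ex (fun x => (f x ^ 2) ^ (2 ^ r)) := ih _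
      _ = _ := Ex_congr fun x => by rw [← pow_mul]

end Ex

/-- the point with coordinates from `x1` where `ε` is true and from `x0` elsewhere -/
def mix {q : ℕ} {A : Fin q → Type} (ε : Fin q → Bool) (x0 x1 : ∀ i, A i) : ∀ i, A i :=
  fun i => if ε i then x1 i else x0 i

theorem mix_cons {q : ℕ} {A : Fin (q + 1) → Type} (b : Bool) (ε : Fin q → Bool) (a a' : A 0)
    (y0 y1 : ∀ i : Fin q, A i.succ) :
    mix (Fin.cons b ε : Fin (q + 1) → Bool) (Fin.cons a y0) (Fin.cons a' y1) =
      Fin.cons (if b then a' else a) (mix (A := fun i => A i.succ) ε y0 y1) := by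
  funext i
  refine Fin.cases ?_ (fun i => ?_) i
  · simp [mix]
  · simp [mix]

theorem prod_cons {q : ℕ} (F : (Fin (q + 1) → Bool) → ℝ) :
    ∏ ε, F ε = ∏ ε : Fin q → Bool, (F (Fin.cons false ε) * F (Fin.cons true ε)) := by
  have h := (Fin.consEquiv (fun _ : Fin (q + 1) => Bool)).prod_comp F
  rw [← h, Fintype.prod_prod_type, Finset.prod_comm]
  refine Finset.prod_congr rfl fun ε _ => ?_
  rw [Fintype.prod_bool, mul_comm]
  rfl

theorem cube : ∀ (q : ℕ) (A : Fin q → Type) [∀ i, Fintype (A i)] [∀ i, Nonempty (A i)]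
    (f : (∀ i, A i) → ℝ) (Ψ : Fin q → (∀ i, A i) → ℝ), (∀ p x, |Ψ p x| ≤ 1) →
    (∀ p x (a : A p), Ψ p (Function.update x p a) = Ψ p x) →
    (Ex (fun x => f x * ∏ p, Ψ p x)) ^ (2 ^ q) ≤
      Ex (fun x0 => Ex (fun x1 => ∏ ε : Fin q → Bool, f (mix ε x0 x1)))
  | 0, A, _, _, f, Ψ, h1, h2 => by
    have hs : ∀ x y : (∀ i, A i), x = y := fun x y => funext fun i => i.elim0
    have x : ∀ i, A i := fun i => i.elim0
    have e1 : (fun x => f x * ∏ p, Ψ p x) = fun _ => f x := by
      funext y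
      rw [hs y x]
      simp
    have e2 : (fun x0 => Ex (fun x1 => ∏ ε : Fin 0 → Bool, f (mix ε x0 x1))) = fun _ => f x := by
      funext x0
      have e3 : (fun x1 => ∏ ε : Fin 0 → Bool, f (mix ε x0 x1)) = fun _ => f x := by
        funext x1
        rw [Fintype.prod_unique]
        exact congrArg f (hs _ x)
      rw [e3]
      have : Nonempty (∀ i, A i) := ⟨x⟩
      exact Ex_const _
    have : Nonempty (∀ i, A i) := ⟨x⟩
    rw [e1, e2, Ex_const]
    simp
  | q + 1, A, _, _, f, Ψ, h1, h2 => by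
    obtain ⟨a0⟩ : Nonempty (A 0) := inferInstance
    have hne : Nonempty (∀ i : Fin q, A i.succ) := inferInstance
    set ψ : (∀ i : Fin q, A i.succ) → ℝ := fun y => Ψ 0 (Fin.cons a0 y) with hψ
    set h : A 0 → (∀ i : Fin q, A i.succ) → ℝ := fun a y =>
      f (Fin.cons a y) * ∏ p : Fin q, Ψ p.succ (Fin.cons a y) with hh
    have hΨ0 : ∀ a y, Ψ 0 (Fin.cons a y) = ψ y := by
      intro a y
      have := h2 0 (Fin.cons a0 y) a
      rw [Fin.update_cons_zero] at this
      exact this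
    have hL : Ex (fun x => f x * ∏ p, Ψ p x) = Ex (fun y => ψ y * Ex (fun a => h a y)) := by
      rw [← Ex_equiv (Fin.consEquiv A), Ex_prod, Ex_comm]
      refine Ex_congr fun y => ?_
      rw [← Ex_mul_left]
      refine Ex_congr fun a => ?_
      show f (Fin.cons a y) * ∏ p, Ψ p (Fin.cons a y) = _
      rw [Fin.prod_univ_succ, hΨ0]
      simp only [hh]
      ring
    have hsq : (Ex (fun x => f x * ∏ p, Ψ p x)) ^ 2 ≤
        Ex (fun a => Ex (fun a' => Ex (fun y => h a y * h a' y))) := by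
      rw [hL]
      refine (Ex_sq _).trans ?_
      calc Ex (fun y => (ψ y * Ex (fun a => h a y)) ^ 2) ≤ Ex (fun y => (Ex (fun a => h a y)) ^ 2) := by
            refine Ex_mono fun y => ?_
            rw [mul_pow]
            have h3 : ψ y ^ 2 ≤ 1 := by
              rw [← sq_abs]
              exact pow_le_one₀ (abs_nonneg _) (h1 0 _)
            nlinarith [sq_nonneg (Ex (fun a => h a y))]
        _ = Ex (fun y => Ex (fun a => Ex (fun a' => h a y * h a' y))) := by
            refine Ex_congr fun y => ?_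
            rw [sq, Ex_mul]
        _ = Ex (fun a => Ex (fun y => Ex (fun a' => h a y * h a' y))) := Ex_comm _
        _ = _ := Ex_congr fun a => Ex_comm _
    have hJ : ∀ a a', (Ex (fun y => h a y * h a' y)) ^ (2 ^ q) ≤
        Ex (fun y0 => Ex (fun y1 => ∏ ε : Fin q → Bool,
          (f (Fin.cons a (mix (A := fun i => A i.succ) ε y0 y1)) *
            f (Fin.cons a' (mix (A := fun i => A i.succ) ε y0 y1))))) := by
      intro a a'
      have key := cube q (fun i => A i.succ) (fun y => f (Fin.cons a y) * f (Fin.cons a' y))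
        (fun p y => Ψ p.succ (Fin.cons a y) * Ψ p.succ (Fin.cons a' y)) ?_ ?_
      · refine le_trans (le_of_eq ?_) key
        congr 1
        refine Ex_congr fun y => ?_
        simp only [hh]
        rw [Finset.prod_mul_distrib]
        ring
      · intro p y
        rw [abs_mul]
        exact mul_le_one₀ (h1 _ _) (abs_nonneg _) (h1 _ _)
      · intro p y b
        rw [Fin.cons_update, Fin.cons_update, h2, h2]
    calc (Ex (fun x => f x * ∏ p, Ψ p x)) ^ (2 ^ (q + 1))
        = ((Ex (fun x => f x * ∏ p, Ψ p x)) ^ 2) ^ (2 ^ q) := by rw [← pow_mul, ← pow_succ']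
      _ ≤ (Ex (fun a => Ex (fun a' => Ex (fun y => h a y * h a' y)))) ^ (2 ^ q) :=
          pow_le_pow_left₀ (sq_nonneg _) hsq _
      _ ≤ Ex (fun a => (Ex (fun a' => Ex (fun y => h a y * h a' y))) ^ (2 ^ q)) := Ex_pow q _
      _ ≤ Ex (fun a => Ex (fun a' => (Ex (fun y => h a y * h a' y)) ^ (2 ^ q))) :=
          Ex_mono fun a => Ex_pow q _
      _ ≤ Ex (fun a => Ex (fun a' => Ex (fun y0 => Ex (fun y1 => ∏ ε : Fin q → Bool,
          (f (Fin.cons a (mix (A := fun i => A i.succ) ε y0 y1)) *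
            f (Fin.cons a' (mix (A := fun i => A i.succ) ε y0 y1))))))) :=
          Ex_mono fun a => Ex_mono fun a' => hJ a a'
      _ = Ex (fun a => Ex (fun y0 => Ex (fun a' => Ex (fun y1 => ∏ ε : Fin q → Bool,
          (f (Fin.cons a (mix (A := fun i => A i.succ) ε y0 y1)) *
            f (Fin.cons a' (mix (A := fun i => A i.succ) ε y0 y1))))))) :=
          Ex_congr fun a => Ex_comm _
      _ = Ex (fun x0 => Ex (fun x1 => ∏ ε : Fin (q + 1) → Bool, f (mix ε x0 x1))) := by
          rw [← Ex_equiv (Fin.consEquiv A) (fun x0 => Ex (fun x1 => ∏ ε, f (mix ε x0 x1))), Ex_prod]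
          refine Ex_congr fun a => Ex_congr fun y0 => ?_
          rw [← Ex_equiv (Fin.consEquiv A) (fun x1 => ∏ ε, f (mix ε _ x1)), Ex_prod]
          refine Ex_congr fun a' => Ex_congr fun y1 => ?_
          rw [prod_cons]
          refine Finset.prod_congr rfl fun ε _ => ?_
          show _ = f (mix (Fin.cons false ε) (Fin.cons a y0) (Fin.cons a' y1)) *
            f (mix (Fin.cons true ε) (Fin.cons a y0) (Fin.cons a' y1))
          rw [mix_cons, mix_cons]
          rfl

end

end Pool.Agent.ACS
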