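import Pool.Agent.ACS.Pub
import Pool.Agent.ACP.Circ

/-!
# Guessing the values of the symmetric gates
-/

set_option autoImplicit false
set_option linter.unusedSectionVars false

namespace Pool.Agent.ACS

open Pool.Agent.ACP

variable {X : Type} {B : Set (X → Bool)} {s d : ℕ}

/-- conjunctions of `M` symmetric conditions on circuits of depth `d` -/
def SP (B : Set (X → Bool)) (s d M : ℕ) : Set (X → Bool) :=
  {P | ∃ (t : Fin M → ℕ) (h : ∀ i, Fin (t i) → X → Bool) (φ : Fin M → ℕ → Bool),
    (∀ i, t i ≤ s) ∧ (∀ i l, h i l ∈ AC B s d) ∧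
    ∀ x, P x = true ↔ ∀ i, φ i (Finset.univ.filter (fun l => h i l x = true)).card = true}

/-- replacing functions by constants -/
theorem AC_guess {m : ℕ} (g : Fin m → X → Bool) (γ : Fin m → Bool) (J : Set (Fin m))
    (hB : ∀ b : Bool, (fun _ => b) ∈ B) {f : X → Bool}
    (hf : f ∈ AC (B ∪ {u | ∃ j ∈ J, u = g j ∨ u = fun x => !g j x}) s d) :
    ∃ f' ∈ AC B s d, ∀ x, (∀ j ∈ J, g j x = γ j) → f' x = f x := by
  classical
  induction d generalizing f with
  | zero =>
    rcases hf with hf | ⟨j, hj, rfl | rfl⟩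
    · exact ⟨f, hf, fun x _ => rfl⟩
    · exact ⟨fun _ => γ j, hB _, fun x hx => (hx j hj).symm⟩
    · exact ⟨fun _ => !γ j, hB _, fun x hx => by
        show (!γ j) = !g j x
        rw [hx j hj]⟩
  | succ d ih =>
    obtain ⟨t, u, ht, hu, hfu⟩ := hf
    choose u' hu' hu'' using fun i => ih (hu i)
    rcases hfu with h | h
    · refine ⟨fun x => decide (∃ i, u' i x = true), ⟨t, u', ht, hu', Or.inl fun x =>
        decide_eq_true_iff⟩, fun x hx => ?_⟩
      rw [Bool.eq_iff_iff, decide_eq_true_iff, h]
      exact exists_congr fun i => by rw [hu'' i x hx]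
    · refine ⟨fun x => decide (∀ i, u' i x = true), ⟨t, u', ht, hu', Or.inr fun x =>
        decide_eq_true_iff⟩, fun x hx => ?_⟩
      rw [Bool.eq_iff_iff, decide_eq_true_iff, h]
      exact forall_congr' fun i => by rw [hu'' i x hx]

theorem SyAC_guess {m : ℕ} (hs : 1 ≤ s) (hB : ∀ b : Bool, (fun _ => b) ∈ B) {f : X → Bool}
    (hf : f ∈ SyAC B s d m) : ∃ P : (Fin m → Bool) → X → Bool, (∀ γ, P γ ∈ SP B s d (m + 1)) ∧
      ∀ x, (if f x = true then (1 : ℝ) else 0) = ∑ γ, if P γ x = true then (1 : ℝ) else 0 := by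
  classical
  obtain ⟨t, h, φ, g, ht, hh, hg, hf⟩ := hf
  have h1 : ∀ (γ : Fin m → Bool) (i : Fin m) (l : Fin (t i)), ∃ h' ∈ AC B s d,
      ∀ x, (∀ j ∈ {j | j < i}, g j x = γ j) → h' x = h i l x := fun γ i l =>
    AC_guess g γ {j | j < i} hB (hh i l)
  choose h' hh' hh'' using h1
  have h2 : ∀ γ : Fin m → Bool, ∃ f' ∈ AC B s d,
      ∀ x, (∀ j ∈ (Set.univ : Set (Fin m)), g j x = γ j) → f' x = f x := fun γ =>
    AC_guess g γ Set.univ hB (by simpa using hf)
  choose f' hf' hf'' using h2
  set G : (Fin m → Bool) → Fin m → X → Bool := fun γ i x =>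
    φ i (Finset.univ.filter (fun l => h' γ i l x = true)).card with hG
  refine ⟨fun γ x => decide (∀ i, G γ i x = γ i) && f' γ x, fun γ => ?_, fun x => ?_⟩
  · refine ⟨Fin.cons 1 t, fun i => Fin.cases (motive := fun i =>
      Fin ((Fin.cons 1 t : Fin (m + 1) → ℕ) i) → X → Bool) (fun _ => f' γ) (fun i => h' γ i) i,
      fun i => Fin.cases (motive := fun _ => ℕ → Bool) (fun c => decide (c = 1))
        (fun i c => φ i c == γ i) i, ?_, ?_, ?_⟩
    · intro i
      refine Fin.cases ?_ (fun i => ?_) i
      · exact hs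
      · exact ht i
    · intro i
      refine Fin.cases ?_ (fun i => ?_) i
      · exact fun _ => hf' γ
      · exact hh' γ i
    · intro x
      rw [Bool.and_eq_true, decide_eq_true_iff, Fin.forall_fin_succ, and_comm]
      refine and_congr ?_ ?_
      · show f' γ x = true ↔ decide ((Finset.univ.filter
          (fun _ : Fin 1 => f' γ x = true)).card = 1) = true
        cases f' γ x <;> simp
      · refine forall_congr' fun i => ?_
        show G γ i x = γ i ↔ (G γ i x == γ i) = true
        rw [beq_iff_eq]
  · have key : ∀ γ : Fin m → Bool, (∀ i, G γ i x = γ i) ↔ γ = fun i => g i x := by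
      intro γ
      constructor
      · intro hγ
        have h3 : ∀ (n : ℕ) (i : Fin m), i.val = n → γ i = g i x := by
          intro n
          induction n using Nat.strong_induction_on with
          | _ n ih =>
            intro i hi
            have h4 : ∀ l, h' γ i l x = h i l x := fun l => hh'' γ i l x fun j hj =>
              (ih j.val (by rw [← hi]; exact hj) j rfl).symm
            rw [← hγ i, hG, hg]
            simp only [h4]
        funext i
        exact h3 _ i rfl
      · rintro rfl i
        have h4 : ∀ l, h' (fun i => g i x) i l x = h i l x := fun l =>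
          hh'' _ i l x fun j _ => rfl
        rw [hG]
        show φ i _ = g i x
        rw [hg]
        simp only [h4]
    have h5 : ∀ γ, (if (decide (∀ i, G γ i x = γ i) && f' γ x) = true then (1 : ℝ) else 0) =
        if γ = (fun i => g i x) then (if f' γ x = true then (1 : ℝ) else 0) else 0 := by
      intro γ
      by_cases h6 : γ = fun i => g i x
      · have h7 := (key γ).2 h6
        rw [if_pos h6, decide_eq_true h7, Bool.true_and]
      · have h7 : ¬ ∀ i, G γ i x = γ i := fun h => h6 ((key γ).1 h)
        rw [if_neg h6, decide_eq_false h7, Bool.false_and, if_neg Bool.false_ne_true]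
    rw [Finset.sum_congr rfl fun γ _ => h5 γ, Finset.sum_ite_eq' Finset.univ (fun i => g i x),
      if_pos (Finset.mem_univ _), hf'' _ x fun j _ => rfl]

end Pool.Agent.ACS
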