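import Pool.Agent.ACS.Sym
import Pool.Agent.ACS.Guess
import Pool.Agent.ACP.Depth

/-!
# Circuits with symmetric gates have negligible correlation with the parity along the marked path
-/

set_option autoImplicit false
set_option linter.unusedSectionVars false

namespace Pool.Agent.ACS

open Pool.Agent.ACP

private theorem ds_abs_chi {k n : ℕ} (j : Fin n) (x : Inp k (Fin n)) (b : Bool) :
    |chi j x * (if b = true then (1 : ℝ) else 0)| ≤ 1 := by
  have h : |chi j x| = 1 := by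
    unfold chi
    rw [Finset.abs_prod]
    refine Finset.prod_eq_one (fun i _ => ?_)
    split_ifs <;> simp
  rw [abs_mul, h, one_mul]
  split_ifs <;> simp

private theorem ds_avg {k n l e : ℕ} {j : Fin n} {j' : Fin l} (hn2 : 2 ≤ n)
    (S : Sch k (Fin n) (Fin l) j j') (P : Inp k (Fin n) → Bool) (BS : Finset S.Ω)
    (hB : BS.card * n ^ (e + 1) ≤ Fintype.card S.Ω)
    (hgood : ∀ ω, ω ∉ BS → |∑ x : Inp k (Fin l), chi j' x *
        (if P (S.Φ ω x) = true then (1 : ℝ) else 0)| * (n : ℝ) ^ (e + 1) ≤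
      Fintype.card (Inp k (Fin l))) :
    |∑ x, chi j x * (if P x = true then (1 : ℝ) else 0)| * (n : ℝ) ^ e ≤
      Fintype.card (Inp k (Fin n)) := by
  classical
  set g : Inp k (Fin n) → ℝ := fun x => chi j x * (if P x = true then (1 : ℝ) else 0) with hg
  set I : S.Ω → ℝ := fun ω => ∑ x, g (S.Φ ω x) with hI'
  have hIeq : ∀ ω, I ω = ∑ x : Inp k (Fin l), chi j' x *
      (if P (S.Φ ω x) = true then (1 : ℝ) else 0) := by
    intro ω
    simp only [hI', hg]
    refine Finset.sum_congr rfl (fun x _ => ?_)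
    rw [S.chi_eq]
  have hnR : (2 : ℝ) ≤ n := by exact_mod_cast hn2
  have hgoodI : ∀ ω, ω ∉ BS → |I ω| * (n : ℝ) ^ (e + 1) ≤ Fintype.card (Inp k (Fin l)) := by
    intro ω hω
    rw [hIeq]
    exact hgood ω hω
  have hallI : ∀ ω, |I ω| ≤ Fintype.card (Inp k (Fin l)) := by
    intro ω
    rw [hIeq]
    calc _ ≤ ∑ x : Inp k (Fin l), |chi j' x * (if P (S.Φ ω x) = true then (1 : ℝ) else 0)| :=
          Finset.abs_sum_le_sum_abs _ _
      _ ≤ ∑ x : Inp k (Fin l), (1 : ℝ) := Finset.sum_le_sum (fun x _ => ds_abs_chi j' x _)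
      _ = _ := by simp
  set L : ℝ := (Fintype.card (Inp k (Fin l)) : ℝ) with hL
  set O : ℝ := (Fintype.card S.Ω : ℝ) with hO
  have hL0 : 0 < L := by
    rw [hL]
    have : Nonempty (Inp k (Fin l)) := ⟨(fun _ => Equiv.refl _, fun _ _ => false)⟩
    exact_mod_cast Fintype.card_pos
  have hO0 : 0 < O := by
    rw [hO]
    exact_mod_cast Fintype.card_pos
  have htot : |∑ ω, I ω| * (n : ℝ) ^ (e + 1) ≤ 2 * (O * L) := by
    calc |∑ ω, I ω| * (n : ℝ) ^ (e + 1) ≤ (∑ ω, |I ω|) * (n : ℝ) ^ (e + 1) :=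
          mul_le_mul_of_nonneg_right (Finset.abs_sum_le_sum_abs _ _) (by positivity)
      _ = (∑ ω ∈ BS, |I ω|) * (n : ℝ) ^ (e + 1) + ∑ ω ∈ BSᶜ, |I ω| * (n : ℝ) ^ (e + 1) := by
        rw [← Finset.sum_add_sum_compl BS, add_mul, Finset.sum_mul BSᶜ]
      _ ≤ (∑ ω ∈ BS, L) * (n : ℝ) ^ (e + 1) + ∑ ω ∈ BSᶜ, L := by
        refine add_le_add (mul_le_mul_of_nonneg_right (Finset.sum_le_sum (fun ω _ => hallI ω))
          (by positivity)) (Finset.sum_le_sum (fun ω hω => hgoodI ω (Finset.mem_compl.1 hω)))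
      _ = (BS.card * (n : ℝ) ^ (e + 1)) * L + BSᶜ.card * L := by
        rw [Finset.sum_const, Finset.sum_const, nsmul_eq_mul, nsmul_eq_mul]
        ring
      _ ≤ O * L + O * L := by
        refine add_le_add (mul_le_mul_of_nonneg_right ?_ hL0.le)
          (mul_le_mul_of_nonneg_right ?_ hL0.le)
        · rw [hO]
          exact_mod_cast hB
        · rw [hO]
          exact_mod_cast Finset.card_le_univ _
      _ = _ := by ring
  have hunif := S.unif g
  have hNc : (0 : ℝ) ≤ Fintype.card (Inp k (Fin n)) := by positivity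
  have hfinal : |∑ x, g x| * (n : ℝ) ^ (e + 1) ≤ 2 * Fintype.card (Inp k (Fin n)) := by
    have hOL : 0 < O * L := mul_pos hO0 hL0
    apply le_of_mul_le_mul_left _ hOL
    calc O * L * (|∑ x, g x| * (n : ℝ) ^ (e + 1)) = |O * L * ∑ x, g x| * (n : ℝ) ^ (e + 1) := by
          rw [abs_mul, abs_of_pos hOL]
          ring
      _ = |(∑ ω, I ω) * Fintype.card (Inp k (Fin n))| * (n : ℝ) ^ (e + 1) := by
          rw [← hunif]
      _ = (|∑ ω, I ω| * (n : ℝ) ^ (e + 1)) * Fintype.card (Inp k (Fin n)) := by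
          rw [abs_mul, abs_of_nonneg hNc]
          ring
      _ ≤ 2 * (O * L) * Fintype.card (Inp k (Fin n)) :=
          mul_le_mul_of_nonneg_right htot hNc
      _ = _ := by ring
  have hpe : (0 : ℝ) ≤ |∑ x, g x| * (n : ℝ) ^ e := by positivity
  have h2 : 2 * (|∑ x, g x| * (n : ℝ) ^ e) ≤ |∑ x, g x| * (n : ℝ) ^ (e + 1) := by
    calc 2 * (|∑ x, g x| * (n : ℝ) ^ e) ≤ n * (|∑ x, g x| * (n : ℝ) ^ e) :=
          mul_le_mul_of_nonneg_right hnR hpe
      _ = _ := by ring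
  linarith

/-- the numbers in the base case -/
private theorem ds_num {q s c e M k n : ℕ} (hq : 0 < q) (hn : 4 ^ q ≤ n) (hs : s ≤ n ^ c)
    (hk : q * (2 * 2 ^ q) * ((c + 1) * q + e) * (M + 1) ≤ k) {Z : ℝ} (hZ : 0 ≤ Z)
    (h : Z ^ (2 ^ q) ≤ (((s + 1) ^ (q * M) : ℕ) : ℝ) ^ (2 ^ q) *
      (2 ^ q / (n : ℝ)) ^ ((k + 1) / q)) : Z * (n : ℝ) ^ e ≤ 1 := by
  have hn4 : 4 ≤ n := (Nat.pow_le_pow_right (by norm_num) hq).trans hn
  have hnR : (4 : ℝ) ≤ n := by exact_mod_cast hn4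
  have hn0 : (0 : ℝ) < n := by linarith
  set E : ℕ := ((c + 1) * (q * M) + e) * 2 ^ q with hE
  have hs1 : s + 1 ≤ n ^ (c + 1) := by
    have h1 : 1 ≤ n ^ c := Nat.one_le_pow _ _ (by omega)
    calc s + 1 ≤ n ^ c + n ^ c := by omega
      _ = 2 * n ^ c := by ring
      _ ≤ n * n ^ c := Nat.mul_le_mul_right _ (by omega)
      _ = n ^ (c + 1) := by ring
  have ha : 2 * E ≤ (k + 1) / q := by
    rw [Nat.le_div_iff_mul_le hq]
    refine le_trans ?_ (Nat.le_succ k)
    refine le_trans ?_ hk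
    have h1 : (c + 1) * (q * M) + e ≤ ((c + 1) * q + e) * (M + 1) := by
      nlinarith [Nat.zero_le ((c + 1) * q), Nat.zero_le (e * M)]
    calc 2 * E * q = q * (2 * 2 ^ q) * ((c + 1) * (q * M) + e) := by rw [hE]; ring
      _ ≤ q * (2 * 2 ^ q) * (((c + 1) * q + e) * (M + 1)) := Nat.mul_le_mul_left _ h1
      _ = _ := by ring
  have hδ0 : (0 : ℝ) ≤ 2 ^ q / (n : ℝ) := by positivity
  have h4q : ((2 : ℝ) ^ q) ^ 2 ≤ n := by
    have h1 : ((2 : ℝ) ^ q) ^ 2 = ((4 ^ q : ℕ) : ℝ) := by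
      push_cast
      rw [← pow_mul, mul_comm q 2, pow_mul]
      norm_num
    rw [h1]
    exact_mod_cast hn
  have hδ1 : (2 : ℝ) ^ q / n ≤ 1 := by
    rw [div_le_one hn0]
    have h1 : (1 : ℝ) ≤ 2 ^ q := one_le_pow₀ (by norm_num)
    nlinarith
  have hδ2 : ((2 : ℝ) ^ q / n) ^ 2 ≤ 1 / n := by
    rw [div_pow, div_le_div_iff₀ (by positivity) hn0, one_mul]
    calc ((2 : ℝ) ^ q) ^ 2 * n ≤ n * n := mul_le_mul_of_nonneg_right h4q hn0.le
      _ = _ := by ring
  have h5 : ((2 : ℝ) ^ q / n) ^ ((k + 1) / q) ≤ (1 / n) ^ E := by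
    calc ((2 : ℝ) ^ q / n) ^ ((k + 1) / q) ≤ ((2 : ℝ) ^ q / n) ^ (2 * E) :=
          pow_le_pow_of_le_one hδ0 hδ1 ha
      _ = (((2 : ℝ) ^ q / n) ^ 2) ^ E := by rw [pow_mul]
      _ ≤ (1 / n) ^ E := pow_le_pow_left₀ (by positivity) hδ2 _
  have h6 : (Z * (n : ℝ) ^ e) ^ (2 ^ q) ≤ 1 := by
    have h7 : (((s + 1) ^ (q * M) : ℕ) : ℝ) ≤ ((n : ℝ) ^ (c + 1)) ^ (q * M) := by
      push_cast
      have h8 : ((s : ℝ) + 1) ≤ (n : ℝ) ^ (c + 1) := by exact_mod_cast hs1
      exact pow_le_pow_left₀ (by positivity) h8 _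
    calc (Z * (n : ℝ) ^ e) ^ (2 ^ q) = Z ^ (2 ^ q) * ((n : ℝ) ^ e) ^ (2 ^ q) := mul_pow _ _ _
      _ ≤ ((((s + 1) ^ (q * M) : ℕ) : ℝ) ^ (2 ^ q) * (2 ^ q / (n : ℝ)) ^ ((k + 1) / q)) *
          ((n : ℝ) ^ e) ^ (2 ^ q) := mul_le_mul_of_nonneg_right h (by positivity)
      _ ≤ ((((n : ℝ) ^ (c + 1)) ^ (q * M)) ^ (2 ^ q) * (1 / n) ^ E) *
          ((n : ℝ) ^ e) ^ (2 ^ q) := by
        refine mul_le_mul_of_nonneg_right ?_ (by positivity)
        exact mul_le_mul (pow_le_pow_left₀ (by positivity) h7 _) h5 (by positivity)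
          (by positivity)
      _ = ((n : ℝ) ^ E) * (1 / n) ^ E := by
        rw [hE, ← pow_mul, ← pow_mul, ← pow_mul]
        ring
      _ = 1 := by
        rw [← mul_pow, mul_one_div_cancel hn0.ne', one_pow]
  by_contra hcon
  push Not at hcon
  have := one_lt_pow₀ hcon (pow_ne_zero q (two_ne_zero' ℕ))
  linarith

theorem corrS (d : ℕ) : ∀ T c e : ℕ, ∃ κ n₀ : ℕ, ∀ n ≥ n₀, ∀ k M, κ * (M + 1) ≤ k → M ≤ n ^ c →
    ∀ s ≤ n ^ c, ∀ (j : Fin n), ∀ P ∈ SP (SDT k (Fin n) j T) s d M,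
      |∑ x, chi j x * (if P x = true then (1 : ℝ) else 0)| * (n : ℝ) ^ e ≤
        Fintype.card (Inp k (Fin n)) := by
  classical
  induction d with
  | zero =>
    intro T c e
    refine ⟨(T + 2) * (2 * 2 ^ (T + 2)) * ((c + 1) * (T + 2) + e), 4 ^ (T + 2),
      fun n hn k M hk _ s hs j P hP => ?_⟩
    obtain ⟨t, h, φ, ht, hh, hPφ⟩ := hP
    have hne : Nonempty (Fin n) := ⟨j⟩
    have h1 := sym_bound (q := T + 2) j (Nat.lt_succ_self (T + 1)) t ht h hh φ P hPφ
    rw [Fintype.card_fin] at h1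
    set Z : ℝ := |Ex fun x : Inp k (Fin n) => chi j x * (if P x = true then (1 : ℝ) else 0)|
      with hZ
    have heven : Even (2 ^ (T + 2)) := (even_two).pow_of_ne_zero (by omega)
    have h2 := ds_num (q := T + 2) (e := e) (by omega) hn hs hk (abs_nonneg _) (Z := Z)
      (by rw [hZ, heven.pow_abs]; exact h1)
    have hc0 : (0 : ℝ) < Fintype.card (Inp k (Fin n)) := by
      have : Nonempty (Inp k (Fin n)) := ⟨(fun _ => Equiv.refl _, fun _ _ => false)⟩
      exact_mod_cast Fintype.card_pos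
    have h3 : |∑ x, chi j x * (if P x = true then (1 : ℝ) else 0)| =
        Z * Fintype.card (Inp k (Fin n)) := by
      rw [hZ]
      unfold Ex
      rw [abs_div, abs_of_pos hc0, div_mul_cancel₀ _ hc0.ne']
    rw [h3]
    calc Z * Fintype.card (Inp k (Fin n)) * (n : ℝ) ^ e =
          (Z * (n : ℝ) ^ e) * Fintype.card (Inp k (Fin n)) := by ring
      _ ≤ 1 * Fintype.card (Inp k (Fin n)) := mul_le_mul_of_nonneg_right h2 hc0.le
      _ = _ := one_mul _
  | succ d ih =>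
    intro T c e
    obtain ⟨K, hK⟩ := level T
    obtain ⟨D, n₁, hD⟩ := hK (c * (d + 2) + e + 1)
    obtain ⟨κ, n₂, hI⟩ := ih D (K * c) (K * (e + 1))
    refine ⟨κ, max (max n₁ 2) (n₂ ^ K + 1), fun n hn k M hk hM s hs j P hP => ?_⟩
    have hn1 : n₁ ≤ n := le_trans (le_trans (le_max_left _ _) (le_max_left _ _)) hn
    have hn2 : 2 ≤ n := le_trans (le_trans (le_max_right _ _) (le_max_left _ _)) hn
    have hn3 : n₂ ^ K + 1 ≤ n := le_trans (le_max_right _ _) hn
    obtain ⟨l, j', hnl, S, hS⟩ := hD n hn1 k j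
    have hl : n₂ ≤ l := by
      by_contra h
      push Not at h
      have : l ^ K ≤ n₂ ^ K := Nat.pow_le_pow_left h.le K
      omega
    obtain ⟨t, h, φ, ht, hh, hPφ⟩ := hP
    set BS : Finset S.Ω := Finset.univ.biUnion fun i : Fin M => Finset.univ.biUnion
      fun a : Fin (t i) => Finset.univ.filter (fun ω : S.Ω =>
          (fun x => h i a (S.Φ ω x)) ∉ AC (SDT k (Fin l) j' D) s d) with hBS
    have hB : BS.card * n ^ (e + 1) ≤ Fintype.card S.Ω := by
      have h1 : s ^ d ≤ n ^ (c * d) := by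
        rw [pow_mul]
        exact Nat.pow_le_pow_left hs d
      have h2 : 0 < n ^ (c * (d + 2)) := by positivity
      apply Nat.le_of_mul_le_mul_right _ h2
      have h3 : BS.card * n ^ (c * (d + 2) + e + 1) ≤ M * (s * (s ^ d * Fintype.card S.Ω)) := by
        calc BS.card * n ^ (c * (d + 2) + e + 1) ≤
              (∑ i : Fin M, ∑ a : Fin (t i), (Finset.univ.filter (fun ω : S.Ω =>
                (fun x => h i a (S.Φ ω x)) ∉ AC (SDT k (Fin l) j' D) s d)).card) *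
              n ^ (c * (d + 2) + e + 1) := by
              refine Nat.mul_le_mul_right _ (Finset.card_biUnion_le.trans ?_)
              exact Finset.sum_le_sum fun i _ => Finset.card_biUnion_le
          _ = ∑ i : Fin M, ∑ a : Fin (t i), (Finset.univ.filter (fun ω : S.Ω =>
                (fun x => h i a (S.Φ ω x)) ∉ AC (SDT k (Fin l) j' D) s d)).card *
                n ^ (c * (d + 2) + e + 1) := by
              rw [Finset.sum_mul]
              exact Finset.sum_congr rfl fun i _ => Finset.sum_mul _ _ _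
          _ ≤ ∑ i : Fin M, ∑ a : Fin (t i), s ^ d * Fintype.card S.Ω :=
              Finset.sum_le_sum fun i _ => Finset.sum_le_sum fun a _ => hS s d _ (hh i a)
          _ ≤ ∑ i : Fin M, s * (s ^ d * Fintype.card S.Ω) := by
              refine Finset.sum_le_sum fun i _ => ?_
              rw [Finset.sum_const, Finset.card_univ, Fintype.card_fin, smul_eq_mul]
              exact Nat.mul_le_mul_right _ (ht i)
          _ = _ := by
              rw [Finset.sum_const, Finset.card_univ, Fintype.card_fin, smul_eq_mul]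
      calc BS.card * n ^ (e + 1) * n ^ (c * (d + 2)) =
            BS.card * n ^ (c * (d + 2) + e + 1) := by ring
        _ ≤ M * (s * (s ^ d * Fintype.card S.Ω)) := h3
        _ ≤ n ^ c * (n ^ c * (n ^ (c * d) * Fintype.card S.Ω)) :=
            Nat.mul_le_mul hM (Nat.mul_le_mul hs (Nat.mul_le_mul_right _ h1))
        _ = _ := by ring
    have hsc : s ≤ l ^ (K * c) := by
      calc s ≤ n ^ c := hs
        _ ≤ (l ^ K) ^ c := Nat.pow_le_pow_left hnl c
        _ = _ := by rw [pow_mul]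
    have hMc : M ≤ l ^ (K * c) := by
      calc M ≤ n ^ c := hM
        _ ≤ (l ^ K) ^ c := Nat.pow_le_pow_left hnl c
        _ = _ := by rw [pow_mul]
    have hnl' : (n : ℝ) ^ (e + 1) ≤ (l : ℝ) ^ (K * (e + 1)) := by
      rw [pow_mul]
      exact pow_le_pow_left₀ (by positivity) (by exact_mod_cast hnl) _
    refine ds_avg hn2 S P BS hB fun ω hω => ?_
    have hmem : (fun x => P (S.Φ ω x)) ∈ SP (SDT k (Fin l) j' D) s d M := by
      refine ⟨t, fun i a x => h i a (S.Φ ω x), φ, ht, fun i a => ?_, fun x => hPφ _⟩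
      by_contra hc
      refine hω ?_
      rw [hBS, Finset.mem_biUnion]
      refine ⟨i, Finset.mem_univ _, ?_⟩
      rw [Finset.mem_biUnion]
      exact ⟨a, Finset.mem_univ _, Finset.mem_filter.2 ⟨Finset.mem_univ _, hc⟩⟩
    have h1 := hI l hl k M hk hMc s hsc j' _ hmem
    exact le_trans (mul_le_mul_of_nonneg_left hnl' (abs_nonneg _)) h1

end Pool.Agent.ACS
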