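import Pool.Agent.ACP.Pub

/-!
# Circuits with symmetric gates
-/

set_option autoImplicit false

namespace Pool.Agent.ACS

open Pool.Agent.ACP

/-- `SyAC B s d m`: the Boolean functions computed by circuits with `m` symmetric gates
`g 0, .., g (m - 1)`. The gate `g i` has `t i ≤ s` inputs and its value depends only on the number of
the inputs that are true, in an arbitrary way (parity, majority, threshold and modular gates are
examples); each of its inputs is obtained by `d` rounds of ANDs and ORs of fan-in at most `s` from
functions in `B`, the symmetric gates `g j` with `j < i` and their negations. The output is obtained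
by `d` rounds of ANDs and ORs of fan-in at most `s` from functions in `B`, the symmetric gates and
their negations. -/
def SyAC {X : Type} (B : Set (X → Bool)) (s d m : ℕ) : Set (X → Bool) :=
  {f | ∃ (t : Fin m → ℕ) (h : ∀ i, Fin (t i) → X → Bool) (φ : Fin m → ℕ → Bool)
      (g : Fin m → X → Bool), (∀ i, t i ≤ s) ∧
    (∀ i l, h i l ∈ AC (B ∪ {u | ∃ j < i, u = g j ∨ u = fun x => !g j x}) s d) ∧
    (∀ i x, g i x = φ i (Finset.univ.filter (fun l => h i l x = true)).card) ∧
    f ∈ AC (B ∪ {u | ∃ j, u = g j ∨ u = fun x => !g j x}) s d}

/-- Semantic security against all randomised adversaries of polynomial size and constant depth with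
`c * log n` symmetric gates, for every constant `c`. -/
def SecureSym (S : PKE) : Prop :=
  ∀ c d e : ℕ, ∃ n₀, ∀ n ≥ n₀, ∀ (m : ℕ),
    ∀ A ∈ SyAC (lits (Fin (S.pk n) ⊕ Fin (S.ct n) ⊕ Fin m)) (n ^ c + c) d (c * Nat.log 2 n),
      |S.pr n m A false - S.pr n m A true| ≤ 1 / (n : ℝ) ^ e

end Pool.Agent.ACS
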