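import Pool.Agent.ACS.Trans

/-!
# Symmetric gates of decision trees
-/

set_option autoImplicit false
set_option linter.unusedSectionVars false

namespace Pool.Agent.ACS

open Pool.Agent.ACP

noncomputable section

/-- every answer depends on one layer -/
theorem ans_mk {V : Type} {k : ℕ} (a : Qry k V) : ∃ (i₀ : Fin (k + 1)) (F : Lay V → V ⊕ Bool),
    ∀ X : Fin (k + 1) → Lay V, ans (mk X) a = F (X i₀) := by
  cases a with
  | lab i u => exact ⟨i, fun L => Sum.inr (L.2 u), fun X => rfl⟩
  | out i u =>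
    refine ⟨i.succ, fun L => Sum.inl (L.1 u), fun X => ?_⟩
    show Sum.inl (cum (fun i => (X i).1) i.succ ((cum (fun i => (X i).1) i.castSucc).symm u)) = _
    rw [cum_succ]
    simp
  | inn i v =>
    refine ⟨i.succ, fun L => Sum.inl (L.1.symm v), fun X => ?_⟩
    show Sum.inl (cum (fun i => (X i).1) i.castSucc ((cum (fun i => (X i).1) i.succ).symm v)) = _
    rw [cum_succ]
    simp

variable {q : ℕ} [NeZero q]

/-- a decision tree is a sum of functions that do not depend on one of the colours -/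
theorem DT_split {k : ℕ} {V : Type} (T : ℕ) : ∀ (Ps : Finset (Fin q)), T < Ps.card →
    ∀ f ∈ DT k V T, ∃ N : Fin q → (Fin (k + 1) → Lay V) → Bool, (∀ p, Ind p (N p)) ∧
      (∀ p ∉ Ps, ∀ X, N p X = false) ∧ ∀ X, (f (mk X)).toNat = ∑ p, (N p X).toNat := by
  classical
  induction T with
  | zero =>
    intro Ps hP f hf
    obtain ⟨b, hb⟩ := hf
    obtain ⟨p, hp⟩ := Finset.card_pos.1 hP
    refine ⟨fun p' _ => decide (p' = p) && b, fun p' X X' _ => rfl, fun p' hp' X => ?_,
      fun X => ?_⟩
    · have h1 : p' ≠ p := fun h => hp' (h ▸ hp)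
      simp [h1]
    · rw [Finset.sum_eq_single p]
      · simp [hb]
      · intro p' _ hp'
        simp [hp']
      · intro h
        exact absurd (Finset.mem_univ p) h
  | succ T ih =>
    intro Ps hP f hf
    rcases hf with hf | ⟨a, g, hg, hfg⟩
    · exact ih Ps (by omega) f hf
    · obtain ⟨i₀, F, hF⟩ := ans_mk a
      have hP' : T < (Ps.erase (col q (k + 1) i₀)).card := by
        have := Finset.pred_card_le_card_erase (s := Ps) (a := col q (k + 1) i₀)
        omega
      choose N hN1 hN2 hN3 using fun b => ih (Ps.erase (col q (k + 1) i₀)) hP' (g b) (hg b)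
      refine ⟨fun p X => N (ans (mk X) a) p X, fun p X X' hX => ?_, fun p hp X => ?_,
        fun X => ?_⟩
      · by_cases hpc : p = col q (k + 1) i₀
        · have h1 : p ∉ Ps.erase (col q (k + 1) i₀) := by
            rw [hpc]
            exact Finset.notMem_erase _ _
          show N (ans (mk X) a) p X = N (ans (mk X') a) p X'
          rw [hN2 _ p h1, hN2 _ p h1]
        · have h1 : ans (mk X) a = ans (mk X') a := by
            rw [hF, hF, hX i₀ (fun h => hpc h.symm)]
          show N (ans (mk X) a) p X = N (ans (mk X') a) p X'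
          rw [h1]
          exact hN1 _ p X X' hX
      · exact hN2 _ p (fun h => hp (Finset.mem_of_mem_erase h)) X
      · rw [hfg]
        exact hN3 _ X

theorem SDT_split {k : ℕ} {V : Type} {j : V} {T : ℕ} (hq : T + 1 < q) {f : Inp k V → Bool}
    (hf : f ∈ SDT k V j T) : ∃ N : Fin q → (Fin (k + 1) → Lay V) → Bool, (∀ p, Ind p (N p)) ∧
      ∀ X, (f (mk X)).toNat = ∑ p, (N p X).toNat := by
  classical
  obtain ⟨D, hD, hfD⟩ := hf
  have hP : T < ((Finset.univ : Finset (Fin q)).erase (col q (k + 1) 0)).card := by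
    rw [Finset.card_erase_of_mem (Finset.mem_univ _), Finset.card_univ, Fintype.card_fin]
    omega
  choose N hN1 hN2 hN3 using fun u => DT_split T _ hP (D u) (hD u)
  refine ⟨fun p X => N ((X 0).1 j) p X, fun p X X' hX => ?_, fun X => ?_⟩
  · show N ((X 0).1 j) p X = N ((X' 0).1 j) p X'
    by_cases hpc : p = col q (k + 1) 0
    · have h1 : p ∉ (Finset.univ : Finset (Fin q)).erase (col q (k + 1) 0) := by
        rw [hpc]
        exact Finset.notMem_erase _ _
      rw [hN2 _ p h1, hN2 _ p h1]
    · rw [hX 0 (fun h => hpc h.symm)]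
      exact hN1 _ p X X' hX
  · rw [hfD]
    exact hN3 _ X

/-- Conjunctions of conditions on the numbers of true functions among families of decision
trees. -/
theorem sym_bound {V : Type} [Fintype V] [DecidableEq V] [Nonempty V] {k T s M : ℕ} (j : V)
    (hq : T + 1 < q) (t : Fin M → ℕ) (ht : ∀ i, t i ≤ s) (h : ∀ i, Fin (t i) → Inp k V → Bool)
    (hh : ∀ i l, h i l ∈ SDT k V j T) (Φ : Fin M → ℕ → Bool) (P : Inp k V → Bool)
    (hP : ∀ x, P x = true ↔
      ∀ i, Φ i (Finset.univ.filter (fun l => h i l x = true)).card = true) :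
    (Ex fun x : Inp k V => chi j x * (if P x = true then (1 : ℝ) else 0)) ^ (2 ^ q) ≤
      (((s + 1) ^ (q * M) : ℕ) : ℝ) ^ (2 ^ q) *
        (2 ^ q / (Fintype.card V : ℝ)) ^ ((k + 1) / q) := by
  classical
  choose N hN1 hN2 using fun i l => SDT_split (q := q) hq (hh i l)
  -- the numbers
  have hA : ∀ i p (X : Fin (k + 1) → Lay V), ∑ l, (N i l p X).toNat < s + 1 := by
    intro i p X
    refine Nat.lt_succ_of_le (le_trans ?_ (ht i))
    calc ∑ l, (N i l p X).toNat ≤ ∑ _l : Fin (t i), 1 :=
          Finset.sum_le_sum fun l _ => Bool.toNat_le _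
      _ = t i := by simp
  set A : Fin M → Fin q → (Fin (k + 1) → Lay V) → Fin (s + 1) := fun i p X => ⟨_, hA i p X⟩
    with hAdef
  have hAind : ∀ i p, Ind p (A i p) := by
    intro i p X X' hX
    have h1 : ∑ l, (N i l p X).toNat = ∑ l, (N i l p X').toNat :=
      Finset.sum_congr rfl fun l _ => by rw [hN1 i l p X X' hX]
    exact Fin.ext h1
  have hcard : ∀ i X, (Finset.univ.filter (fun l => h i l (mk X) = true)).card =
      ∑ p, (A i p X : ℕ) := by
    intro i X
    have h1 : (Finset.univ.filter (fun l => h i l (mk X) = true)).card =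
        ∑ l, (h i l (mk X)).toNat := by
      rw [Finset.card_filter]
      refine Finset.sum_congr rfl fun l _ => ?_
      cases h i l (mk X) <;> rfl
    rw [h1, Finset.sum_congr rfl fun l _ => hN2 i l X, Finset.sum_comm]
  set Ψ : (Fin M → Fin q → Fin (s + 1)) → Fin q → (Fin (k + 1) → Lay V) → ℝ := fun v p X =>
    if ∀ i, A i p X = v i p then 1 else 0 with hΨ
  set g : (Fin M → Fin q → Fin (s + 1)) → ℝ := fun v =>
    if ∀ i, Φ i (∑ p, (v i p : ℕ)) = true then 1 else 0 with hg
  have hg1 : ∀ v, |g v| ≤ 1 := by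
    intro v
    rw [hg]
    dsimp only
    split_ifs <;> simp
  have hΨ1 : ∀ v p X, |Ψ v p X| ≤ 1 := by
    intro v p X
    rw [hΨ]
    dsimp only
    split_ifs <;> simp
  have hΨ2 : ∀ v p, Ind p (Ψ v p) := by
    intro v p X X' hX
    rw [hΨ]
    dsimp only
    have h1 : ∀ i, A i p X = A i p X' := fun i => hAind i p X X' hX
    simp only [h1]
  have hprod : ∀ v X, ∏ p, Ψ v p X = if v = (fun i p => A i p X) then 1 else 0 := by
    intro v X
    by_cases hv : v = fun i p => A i p X
    · rw [if_pos hv]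
      refine Finset.prod_eq_one fun p _ => ?_
      rw [hΨ]
      dsimp only
      rw [if_pos]
      intro i
      rw [hv]
    · rw [if_neg hv]
      have h1 : ∃ p i, A i p X ≠ v i p := by
        by_contra hcon
        push Not at hcon
        exact hv (funext fun i => funext fun p => (hcon p i).symm)
      obtain ⟨p, i, hpi⟩ := h1
      refine Finset.prod_eq_zero (Finset.mem_univ p) ?_
      rw [hΨ]
      dsimp only
      rw [if_neg]
      exact fun hcon => hpi (hcon i)
  have hPX : ∀ X : Fin (k + 1) → Lay V, (if P (mk X) = true then (1 : ℝ) else 0) =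
      ∑ v, g v * ∏ p, Ψ v p X := by
    intro X
    simp only [hprod, mul_ite, mul_one, mul_zero]
    rw [Finset.sum_ite_eq' Finset.univ (fun i p => A i p X) g, if_pos (Finset.mem_univ _), hg]
    dsimp only
    congr 1
    rw [hP]
    refine propext (forall_congr' fun i => ?_)
    rw [hcard]
  set b : (Fin M → Fin q → Fin (s + 1)) → ℝ := fun v =>
    Ex (fun X => chiG (k + 1) j X * ∏ p, Ψ v p X) with hb
  have hEx : (Ex fun x : Inp k V => chi j x * (if P x = true then (1 : ℝ) else 0)) =
      ∑ v, g v * b v := by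
    rw [← Ex_equiv (mkE V k)]
    have h1 : ∀ X : Fin (k + 1) → Lay V, chi j (mkE V k X) *
        (if P (mkE V k X) = true then (1 : ℝ) else 0) =
        ∑ v, g v * (chiG (k + 1) j X * ∏ p, Ψ v p X) := by
      intro X
      show chi j (mk X) * (if P (mk X) = true then (1 : ℝ) else 0) = _
      rw [chi_mk, hPX, Finset.mul_sum]
      exact Finset.sum_congr rfl fun v _ => by ring
    rw [Ex_congr h1, Ex_sum]
    exact Finset.sum_congr rfl fun v _ => Ex_mul_left _ _
  have hbv : ∀ v, b v ^ (2 ^ q) ≤ (2 ^ q / (Fintype.card V : ℝ)) ^ ((k + 1) / q) := fun v =>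
    cyl_bound (k + 1) j (Ψ v) (hΨ1 v) (hΨ2 v)
  obtain ⟨v₀, -, hv₀⟩ := Finset.exists_max_image
    (Finset.univ : Finset (Fin M → Fin q → Fin (s + 1))) (fun v => |b v|)
    ⟨fun _ _ => 0, Finset.mem_univ _⟩
  have hsum : |∑ v, g v * b v| ≤ (((s + 1) ^ (q * M) : ℕ) : ℝ) * |b v₀| := by
    calc |∑ v, g v * b v| ≤ ∑ v, |g v * b v| := Finset.abs_sum_le_sum_abs _ _
      _ ≤ ∑ _v : (Fin M → Fin q → Fin (s + 1)), |b v₀| := by
        refine Finset.sum_le_sum fun v _ => ?_
        rw [abs_mul]
        calc |g v| * |b v| ≤ 1 * |b v₀| :=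
              mul_le_mul (hg1 v) (hv₀ v (Finset.mem_univ _)) (abs_nonneg _) zero_le_one
          _ = |b v₀| := one_mul _
      _ = _ := by
        rw [Finset.sum_const, Finset.card_univ, nsmul_eq_mul]
        congr 2
        simp only [Fintype.card_pi, Fintype.card_fin, Finset.prod_const, Finset.card_univ]
        rw [← pow_mul]
  have heven : Even (2 ^ q) := (even_two).pow_of_ne_zero (NeZero.ne q)
  rw [hEx, ← heven.pow_abs]
  calc |∑ v, g v * b v| ^ (2 ^ q) ≤ ((((s + 1) ^ (q * M) : ℕ) : ℝ) * |b v₀|) ^ (2 ^ q) :=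
        pow_le_pow_left₀ (abs_nonneg _) hsum _
    _ = (((s + 1) ^ (q * M) : ℕ) : ℝ) ^ (2 ^ q) * b v₀ ^ (2 ^ q) := by
      rw [mul_pow, heven.pow_abs]
    _ ≤ _ := mul_le_mul_of_nonneg_left (hbv v₀) (by positivity)

end

end Pool.Agent.ACS
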