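import Pool.Agent.ACS.Walk
import Pool.Agent.ACP.Defs

/-!
# Correlation of products of cylinder functions with the parity along the marked path
-/

set_option autoImplicit false
set_option linter.unusedSectionVars false

namespace Pool.Agent.ACS

open Pool.Agent.ACP

noncomputable section

/-- the composed permutations -/
def cum {V : Type} {k : ℕ} (S : Fin (k + 1) → Equiv.Perm V) : Fin (k + 1) → Equiv.Perm V :=
  Fin.induction (motive := fun _ => Equiv.Perm V) (S 0) (fun i p => p.trans (S i.succ))

theorem cum_zero {V : Type} {k : ℕ} (S : Fin (k + 1) → Equiv.Perm V) : cum S 0 = S 0 := rfl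

theorem cum_succ {V : Type} {k : ℕ} (S : Fin (k + 1) → Equiv.Perm V) (i : Fin k) :
    cum S i.succ = (cum S i.castSucc).trans (S i.succ) := by
  unfold cum
  rw [Fin.induction_succ]

theorem cum_tail {V : Type} {k : ℕ} (S : Fin (k + 2) → Equiv.Perm V) (v : V) (i : Fin (k + 1)) :
    cum S i.succ v = cum (fun i : Fin (k + 1) => S i.succ) i (S 0 v) := by
  induction i using Fin.induction with
  | zero =>
    rw [cum_succ]
    rfl
  | succ i ih =>
    rw [cum_succ, cum_succ, Equiv.trans_apply, Equiv.trans_apply, ← ih]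
    rfl

/-- the input made from the layers -/
def mk {V : Type} {k : ℕ} (X : Fin (k + 1) → Lay V) : Inp k V :=
  (cum (fun i => (X i).1), fun i => (X i).2)

/-- the quotients of consecutive permutations -/
def decum {V : Type} {k : ℕ} (π : Fin (k + 1) → Equiv.Perm V) (i : Fin (k + 1)) : Equiv.Perm V :=
  Fin.cases (motive := fun _ => Equiv.Perm V) (π 0)
    (fun i => (π i.castSucc).symm.trans (π i.succ)) i

theorem cum_decum {V : Type} {k : ℕ} (π : Fin (k + 1) → Equiv.Perm V) (i : Fin (k + 1)) :
    cum (decum π) i = π i := by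
  induction i using Fin.induction with
  | zero => rfl
  | succ i ih =>
    rw [cum_succ, ih]
    ext v
    simp [decum]

/-- inputs are the same thing as families of layers -/
def mkE (V : Type) (k : ℕ) : (Fin (k + 1) → Lay V) ≃ Inp k V where
  toFun := mk
  invFun x := fun i => (decum x.1 i, x.2 i)
  left_inv X := by
    funext i
    refine Prod.ext ?_ rfl
    refine Fin.cases ?_ (fun i => ?_) i
    · rfl
    · show (cum (fun i => (X i).1) i.castSucc).symm.trans (cum (fun i => (X i).1) i.succ) = _
      rw [cum_succ]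
      ext v
      simp
  right_inv x := by
    refine Prod.ext ?_ rfl
    funext i
    exact cum_decum x.1 i

theorem chiG_eq {V : Type} : ∀ (n : ℕ) (X : Fin (n + 1) → Lay V) (v : V),
    chiG (n + 1) v X = ∏ i : Fin (n + 1), sg ((X i).2 (cum (fun i => (X i).1) i v))
  | 0, X, v => by
    rw [Fin.prod_univ_succ]
    simp [chiG, cum_zero]
  | n + 1, X, v => by
    rw [chiG, chiG_eq n (fun i => X i.succ)]
    conv_rhs => rw [Fin.prod_univ_succ]
    have h : ∀ i : Fin (n + 1), sg ((X i.succ).2 (cum (fun i : Fin (n + 1) => (X i.succ).1) i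
        ((X 0).1 v))) = sg ((X i.succ).2 (cum (fun i => (X i).1) i.succ v)) := fun i => by
      rw [cum_tail (fun i => (X i).1) v i]
    rw [Finset.prod_congr rfl fun i _ => h i]
    rfl

theorem chi_mk {V : Type} {k : ℕ} (j : V) (X : Fin (k + 1) → Lay V) :
    chi j (mk X) = chiG (k + 1) j X := by
  rw [chiG_eq]
  rfl

/-! ### Independence of a colour -/

variable {q : ℕ} [NeZero q]

/-- `f` does not depend on the layers of colour `p` -/
def Ind {V α : Type} {n : ℕ} (p : Fin q) (f : (Fin n → Lay V) → α) : Prop :=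
  ∀ X X', (∀ i, col q n i ≠ p → X i = X' i) → f X = f X'

/-- the layers, sorted by colours -/
def glE (V : Type) (q n : ℕ) [NeZero q] :
    (∀ p : Fin q, ({i : Fin n // col q n i = p} → Lay V)) ≃ (Fin n → Lay V) where
  toFun x i := x (col q n i) ⟨i, rfl⟩
  invFun X _ i := X i.1
  left_inv x := by
    funext p ⟨i, hi⟩
    subst hi
    rfl
  right_inv X := rfl

theorem cyl_bound {V : Type} [Fintype V] [DecidableEq V] [Nonempty V] (n : ℕ) (j : V)
    (Ψ : Fin q → (Fin n → Lay V) → ℝ) (h1 : ∀ p X, |Ψ p X| ≤ 1) (h2 : ∀ p, Ind p (Ψ p)) :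
    (Ex (fun X => chiG n j X * ∏ p, Ψ p X)) ^ (2 ^ q) ≤
      (2 ^ q / (Fintype.card V : ℝ)) ^ (n / q) := by
  have h3 := cube q (fun p => ({i : Fin n // col q n i = p} → Lay V))
    (fun x => chiG n j (glE V q n x)) (fun p x => Ψ p (glE V q n x)) (fun p x => h1 p _)
    (fun p x a => by
      refine h2 p _ _ fun i hi => ?_
      show Function.update x p a (col q n i) ⟨i, rfl⟩ = x (col q n i) ⟨i, rfl⟩
      rw [Function.update_of_ne hi])
  rw [Ex_equiv (glE V q n) (fun X => chiG n j X * ∏ p, Ψ p X)] at h3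
  refine h3.trans ?_
  have h4 : (Ex fun x0 : (∀ p : Fin q, ({i : Fin n // col q n i = p} → Lay V)) =>
      Ex fun x1 => ∏ ε : Fin q → Bool, chiG n j (glE V q n (mix ε x0 x1))) =
      WW q n (fun _ => j) := by
    unfold WW
    rw [← Ex_equiv (glE V q n)]
    refine Ex_congr fun x0 => ?_
    rw [← Ex_equiv (glE V q n)]
    refine Ex_congr fun x1 => ?_
    refine Finset.prod_congr rfl fun ε _ => ?_
    congr 1
    funext i
    show (if ε (col q n i) then x1 (col q n i) else x0 (col q n i)) ⟨i, rfl⟩ = _
    split_ifs <;> rfl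
  rw [h4]
  exact (le_abs_self _).trans (WW_bound n _)

end

end Pool.Agent.ACS
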