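import Pool.Agent.ACS.Cube

/-!
# Walkers with shared permutations
-/

set_option autoImplicit false
set_option linter.unusedSectionVars false

namespace Pool.Agent.ACS

noncomputable section

/-- one layer: a permutation of the slots and labels -/
abbrev Lay (V : Type) : Type := Equiv.Perm V × (V → Bool)

/-- the sign of a bit -/
def sg (b : Bool) : ℝ := if b then -1 else 1

theorem sg_abs (b : Bool) : |sg b| = 1 := by
  unfold sg
  cases b <;> simp

theorem sg_not (b : Bool) : sg (!b) = - sg b := by
  unfold sg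
  cases b <;> simp

/-- the product of the labels along the path which starts at `v` -/
def chiG {V : Type} : (n : ℕ) → V → (Fin n → Lay V) → ℝ
  | 0, _, _ => 1
  | n + 1, v, X => sg ((X 0).2 ((X 0).1 v)) * chiG n ((X 0).1 v) (fun i => X i.succ)

theorem chiG_abs {V : Type} : ∀ (n : ℕ) (v : V) (X : Fin n → Lay V), |chiG n v X| = 1
  | 0, _, _ => by simp [chiG]
  | n + 1, v, X => by
    rw [chiG, abs_mul, sg_abs, chiG_abs n, one_mul]

variable {q : ℕ} [NeZero q]

/-- the colour of the layer `i` of `n` layers: the number of the layers after it modulo `q` -/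
def col (q : ℕ) [NeZero q] (n : ℕ) (i : Fin n) : Fin q := Fin.ofNat q (n - 1 - i)

theorem col_zero (n : ℕ) : col q (n + 1) 0 = Fin.ofNat q n := by
  unfold col
  simp

theorem col_succ (n : ℕ) (i : Fin n) : col q (n + 1) i.succ = col q n i := by
  unfold col
  congr 1
  rw [Fin.val_succ]
  omega

section

variable {V : Type} [Fintype V] [DecidableEq V]

/-- the mean value of the product over all walkers -/
def WW (q : ℕ) [NeZero q] (n : ℕ) (P : (Fin q → Bool) → V) : ℝ :=
  Ex fun x0 : Fin n → Lay V => Ex fun x1 : Fin n → Lay V =>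
    ∏ ε : Fin q → Bool, chiG n (P ε) (fun i => if ε (col q n i) then x1 i else x0 i)

/-- the mean value of the product of the labels of the current layer -/
def Ev (c : Fin q) (P : (Fin q → Bool) → V) : ℝ :=
  Ex fun y0 : V → Bool => Ex fun y1 : V → Bool =>
    ∏ ε : Fin q → Bool, sg ((if ε c then y1 else y0) (P ε))

/-- the next positions -/
def nx (c : Fin q) (S0 S1 : Equiv.Perm V) (P : (Fin q → Bool) → V) : (Fin q → Bool) → V :=
  fun ε => (if ε c then S1 else S0) (P ε)

theorem WW_zero (P : (Fin q → Bool) → V) : WW q 0 P = 1 := by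
  unfold WW
  simp only [chiG, Finset.prod_const_one]
  rw [Ex_const, Ex_const]

theorem WW_succ (n : ℕ) (P : (Fin q → Bool) → V) :
    WW q (n + 1) P = Ex fun S0 : Equiv.Perm V => Ex fun S1 : Equiv.Perm V =>
      Ev (Fin.ofNat q n) (nx (Fin.ofNat q n) S0 S1 P) * WW q n (nx (Fin.ofNat q n) S0 S1 P) := by
  set c : Fin q := Fin.ofNat q n with hc
  have h1 : WW q (n + 1) P = Ex fun X0 : Lay V => Ex fun t0 : Fin n → Lay V =>
      Ex fun X1 : Lay V => Ex fun t1 : Fin n → Lay V =>
        (∏ ε : Fin q → Bool, sg ((if ε c then X1 else X0).2 ((if ε c then X1 else X0).1 (P ε)))) *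
        ∏ ε : Fin q → Bool, chiG n ((if ε c then X1 else X0).1 (P ε))
          (fun i => if ε (col q n i) then t1 i else t0 i) := by
    unfold WW
    rw [← Ex_equiv (Fin.consEquiv (fun _ : Fin (n + 1) => Lay V)), Ex_prod]
    refine Ex_congr fun X0 => Ex_congr fun t0 => ?_
    rw [← Ex_equiv (Fin.consEquiv (fun _ : Fin (n + 1) => Lay V)), Ex_prod]
    refine Ex_congr fun X1 => Ex_congr fun t1 => ?_
    rw [← Finset.prod_mul_distrib]
    refine Finset.prod_congr rfl fun ε _ => ?_
    show chiG (n + 1) (P ε) (fun i => if ε (col q (n + 1) i) then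
      (Fin.cons X1 t1 : Fin (n + 1) → Lay V) i else (Fin.cons X0 t0 : Fin (n + 1) → Lay V) i) = _
    rw [chiG]
    simp only [col_zero, col_succ, Fin.cons_zero, Fin.cons_succ]
    rfl
  rw [h1]
  have h2 : ∀ X0 : Lay V, (Ex fun t0 : Fin n → Lay V =>
      Ex fun X1 : Lay V => Ex fun t1 : Fin n → Lay V =>
        (∏ ε : Fin q → Bool, sg ((if ε c then X1 else X0).2 ((if ε c then X1 else X0).1 (P ε)))) *
        ∏ ε : Fin q → Bool, chiG n ((if ε c then X1 else X0).1 (P ε))
          (fun i => if ε (col q n i) then t1 i else t0 i)) =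
      Ex fun X1 : Lay V =>
        (∏ ε : Fin q → Bool, sg ((if ε c then X1 else X0).2 ((if ε c then X1 else X0).1 (P ε)))) *
        WW q n (nx c X0.1 X1.1 P) := by
    intro X0
    rw [Ex_comm]
    refine Ex_congr fun X1 => ?_
    unfold WW
    rw [← Ex_mul_left]
    refine Ex_congr fun t0 => ?_
    rw [← Ex_mul_left]
    refine Ex_congr fun t1 => ?_
    congr 1
    refine Finset.prod_congr rfl fun ε _ => ?_
    unfold nx
    split_ifs <;> rfl
  rw [Ex_congr h2, Ex_prod]
  refine Ex_congr fun S0 => ?_
  have h3 : ∀ y0 : V → Bool, (Ex fun X1 : Lay V =>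
        (∏ ε : Fin q → Bool, sg ((if ε c then X1 else (S0, y0)).2
          ((if ε c then X1 else (S0, y0)).1 (P ε)))) *
        WW q n (nx c (S0, y0).1 X1.1 P)) =
      Ex fun S1 : Equiv.Perm V => Ex fun y1 : V → Bool =>
        (∏ ε : Fin q → Bool, sg ((if ε c then y1 else y0) (nx c S0 S1 P ε))) *
        WW q n (nx c S0 S1 P) := by
    intro y0
    rw [Ex_prod]
    refine Ex_congr fun S1 => Ex_congr fun y1 => ?_
    congr 1
    refine Finset.prod_congr rfl fun ε _ => ?_
    unfold nx
    split_ifs <;> rfl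
  rw [Ex_congr h3, Ex_comm]
  refine Ex_congr fun S1 => ?_
  unfold Ev
  rw [← Ex_mul_right]
  refine Ex_congr fun y0 => ?_
  rw [← Ex_mul_right]

/-- the walker without resampling -/
def e0 (q : ℕ) : Fin q → Bool := fun _ => false

theorem Ev_abs_le_one (c : Fin q) (P : (Fin q → Bool) → V) : |Ev c P| ≤ 1 := by
  unfold Ev
  refine (abs_Ex_le _).trans ?_
  calc _ ≤ Ex (fun _ : V → Bool => (1 : ℝ)) := by
        refine Ex_mono fun y0 => (abs_Ex_le _).trans ?_
        calc _ ≤ Ex (fun _ : V → Bool => (1 : ℝ)) := by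
              refine Ex_mono fun y1 => ?_
              rw [Finset.abs_prod]
              refine le_of_eq (Finset.prod_eq_one fun ε _ => sg_abs _)
          _ = 1 := Ex_const _
    _ = 1 := Ex_const _

theorem Ev_eq_zero (c : Fin q) (P : (Fin q → Bool) → V) (h : ∀ ε, ε ≠ e0 q → P (e0 q) ≠ P ε) :
    Ev c P = 0 := by
  set v := P (e0 q) with hv
  let fl : (V → Bool) ≃ (V → Bool) :=
    { toFun := fun y => Function.update y v (!y v)
      invFun := fun y => Function.update y v (!y v)
      left_inv := fun y => by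
        funext u
        by_cases hu : u = v
        · subst hu; simp
        · simp [hu]
      right_inv := fun y => by
        funext u
        by_cases hu : u = v
        · subst hu; simp
        · simp [hu] }
  have h1 : Ev c P = - Ev c P := by
    conv_lhs => unfold Ev
    rw [← Ex_equiv fl]
    unfold Ev
    rw [← Ex_neg]
    refine Ex_congr fun y0 => ?_
    rw [← Ex_neg]
    refine Ex_congr fun y1 => ?_
    rw [← Finset.mul_prod_erase Finset.univ _ (Finset.mem_univ (e0 q)),
      ← Finset.mul_prod_erase Finset.univ (fun ε : Fin q → Bool => sg ((if ε c then y1 else y0) (P ε)))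
        (Finset.mem_univ (e0 q)), neg_mul_eq_neg_mul]
    congr 1
    · show sg ((if (e0 q) c then y1 else fl y0) (P (e0 q))) =
        - sg ((if (e0 q) c then y1 else y0) (P (e0 q)))
      have h2 : (e0 q) c = false := rfl
      rw [h2]
      simp only [Bool.false_eq_true, if_false]
      rw [← hv, ← sg_not]
      congr 1
      show Function.update y0 v (!y0 v) v = _
      simp
    · refine Finset.prod_congr rfl fun ε hε => ?_
      have h3 : P ε ≠ v := (h ε (Finset.ne_of_mem_erase hε)).symm
      congr 1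
      split_ifs
      · rfl
      · show Function.update y0 v (!y0 v) (P ε) = _
        simp [h3]
  linarith

/-- the bound for the probability that a walker meets the walker `e0` -/
def GG (r : ℕ) (P : (Fin q → Bool) → V) : ℝ :=
  ∑ ε ∈ (Finset.univ : Finset (Fin q → Bool)).erase (e0 q),
    if ∃ p : Fin q, p.val < r ∧ ε p = true then 1 / (Fintype.card V : ℝ)
    else if P (e0 q) = P ε then 1 else 0

theorem GG_nonneg (r : ℕ) (P : (Fin q → Bool) → V) : 0 ≤ GG r P := by
  unfold GG
  refine Finset.sum_nonneg fun ε _ => ?_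
  split_ifs <;> positivity

theorem Ev_le_GG (c : Fin q) (P : (Fin q → Bool) → V) : |Ev c P| ≤ GG 0 P := by
  by_cases h : ∀ ε, ε ≠ e0 q → P (e0 q) ≠ P ε
  · rw [Ev_eq_zero c P h, abs_zero]
    exact GG_nonneg _ _
  · push Not at h
    obtain ⟨ε, hε, hP⟩ := h
    refine (Ev_abs_le_one c P).trans ?_
    unfold GG
    have h1 : ∀ ε' ∈ (Finset.univ : Finset (Fin q → Bool)).erase (e0 q), (0 : ℝ) ≤
        if ∃ p : Fin q, p.val < 0 ∧ ε' p = true then 1 / (Fintype.card V : ℝ)
        else if P (e0 q) = P ε' then 1 else 0 := by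
      intro ε' _
      split_ifs <;> positivity
    refine le_trans ?_ (Finset.single_le_sum h1 (Finset.mem_erase.2 ⟨hε, Finset.mem_univ _⟩))
    rw [if_neg, if_pos hP]
    rintro ⟨p, hp, -⟩
    omega

theorem Ex_perm (a : V) (f : V → ℝ) : Ex (fun S : Equiv.Perm V => f (S a)) = Ex f := by
  have h1 : ∀ b, Ex (fun S : Equiv.Perm V => f (S a)) = Ex (fun S : Equiv.Perm V => f (S b)) := by
    intro b
    rw [← Ex_equiv (Equiv.mulRight (Equiv.swap a b))]
    refine Ex_congr fun S => ?_
    show f ((S * Equiv.swap a b) a) = _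
    rw [Equiv.Perm.mul_apply, Equiv.swap_apply_left]
  have : Nonempty V := ⟨a⟩
  calc Ex (fun S : Equiv.Perm V => f (S a)) = Ex (fun _ : V => Ex (fun S : Equiv.Perm V => f (S a))) :=
        (Ex_const _).symm
    _ = Ex (fun b : V => Ex (fun S : Equiv.Perm V => f (S b))) := Ex_congr h1
    _ = Ex (fun S : Equiv.Perm V => Ex (fun b : V => f (S b))) := Ex_comm _
    _ = Ex (fun _ : Equiv.Perm V => Ex f) := Ex_congr fun S => Ex_equiv S f
    _ = Ex f := Ex_const _

theorem Ex_meet (a b : V) : Ex (fun S0 : Equiv.Perm V => Ex (fun S1 : Equiv.Perm V =>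
    if S0 a = S1 b then (1 : ℝ) else 0)) = 1 / (Fintype.card V : ℝ) := by
  have h1 : ∀ S0 : Equiv.Perm V, Ex (fun S1 : Equiv.Perm V => if S0 a = S1 b then (1 : ℝ) else 0) =
      1 / (Fintype.card V : ℝ) := by
    intro S0
    rw [Ex_perm b (fun v => if S0 a = v then (1 : ℝ) else 0)]
    unfold Ex
    rw [Finset.sum_ite_eq, if_pos (Finset.mem_univ _)]
  rw [Ex_congr h1, Ex_const]

theorem Ex_GG (r : ℕ) (hr : r < q) (c : Fin q) (hc : c.val = r) (P : (Fin q → Bool) → V) :
    Ex (fun S0 : Equiv.Perm V => Ex fun S1 : Equiv.Perm V => GG r (nx c S0 S1 P)) =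
      GG (r + 1) P := by
  unfold GG
  have h1 : ∀ S0 : Equiv.Perm V, (Ex fun S1 : Equiv.Perm V =>
      ∑ ε ∈ (Finset.univ : Finset (Fin q → Bool)).erase (e0 q),
        if ∃ p : Fin q, p.val < r ∧ ε p = true then 1 / (Fintype.card V : ℝ)
        else if nx c S0 S1 P (e0 q) = nx c S0 S1 P ε then 1 else 0) =
      ∑ ε ∈ (Finset.univ : Finset (Fin q → Bool)).erase (e0 q), Ex fun S1 : Equiv.Perm V =>
        if ∃ p : Fin q, p.val < r ∧ ε p = true then 1 / (Fintype.card V : ℝ)
        else if nx c S0 S1 P (e0 q) = nx c S0 S1 P ε then 1 else 0 := fun S0 => Ex_sum _ _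
  rw [Ex_congr h1, Ex_sum]
  refine Finset.sum_congr rfl fun ε _ => ?_
  by_cases h2 : ∃ p : Fin q, p.val < r ∧ ε p = true
  · have h3 : ∃ p : Fin q, p.val < r + 1 ∧ ε p = true := by
      obtain ⟨p, hp, hp2⟩ := h2
      exact ⟨p, by omega, hp2⟩
    simp only [if_pos h2, if_pos h3]
    rw [Ex_const, Ex_const]
  · simp only [if_neg h2]
    have h0 : (e0 q) c = false := rfl
    by_cases h4 : ε c = true
    · have h3 : ∃ p : Fin q, p.val < r + 1 ∧ ε p = true := ⟨c, by omega, h4⟩
      rw [if_pos h3, ← Ex_meet (P (e0 q)) (P ε)]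
      refine Ex_congr fun S0 => Ex_congr fun S1 => ?_
      unfold nx
      rw [h0, h4]
      rfl
    · have h3 : ¬ ∃ p : Fin q, p.val < r + 1 ∧ ε p = true := by
        rintro ⟨p, hp, hp2⟩
        rcases Nat.lt_or_ge p.val r with h5 | h5
        · exact h2 ⟨p, h5, hp2⟩
        · have : p = c := Fin.ext (by omega)
          rw [this] at hp2
          exact h4 hp2
      rw [if_neg h3]
      have h5 : ε c = false := by simpa using h4
      have h6 : ∀ S0 S1 : Equiv.Perm V, (if nx c S0 S1 P (e0 q) = nx c S0 S1 P ε then (1 : ℝ) else 0) =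
          if P (e0 q) = P ε then 1 else 0 := by
        intro S0 S1
        unfold nx
        rw [h0, h5]
        simp only [Bool.false_eq_true, if_false]
        exact if_congr (Equiv.apply_eq_iff_eq _) rfl rfl
      simp only [h6]
      rw [Ex_const, Ex_const]

theorem GG_top [Nonempty V] (P : (Fin q → Bool) → V) :
    GG q P ≤ 2 ^ q / (Fintype.card V : ℝ) := by
  unfold GG
  have h1 : ∀ ε ∈ (Finset.univ : Finset (Fin q → Bool)).erase (e0 q),
      (if ∃ p : Fin q, p.val < q ∧ ε p = true then 1 / (Fintype.card V : ℝ)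
        else if P (e0 q) = P ε then 1 else 0) = 1 / (Fintype.card V : ℝ) := by
    intro ε hε
    rw [if_pos]
    by_contra hc
    push Not at hc
    apply Finset.ne_of_mem_erase hε
    funext p
    have := hc p p.2
    simpa [e0] using this
  rw [Finset.sum_congr rfl h1, Finset.sum_const, nsmul_eq_mul, mul_one_div]
  apply div_le_div_of_nonneg_right _ (Nat.cast_nonneg _)
  have h2 : ((Finset.univ : Finset (Fin q → Bool)).erase (e0 q)).card ≤ 2 ^ q := by
    refine (Finset.card_erase_le).trans ?_
    rw [Finset.card_univ, Fintype.card_fun, Fintype.card_bool, Fintype.card_fin]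
  exact_mod_cast h2

theorem WW_step (n : ℕ) (P : (Fin q → Bool) → V) (B : ((Fin q → Bool) → V) → ℝ)
    (hB : ∀ P', |Ev (Fin.ofNat q n) P'| * |WW q n P'| ≤ B P') :
    |WW q (n + 1) P| ≤ Ex fun S0 : Equiv.Perm V => Ex fun S1 : Equiv.Perm V =>
      B (nx (Fin.ofNat q n) S0 S1 P) := by
  rw [WW_succ]
  refine (abs_Ex_le _).trans (Ex_mono fun S0 => (abs_Ex_le _).trans (Ex_mono fun S1 => ?_))
  rw [abs_mul]
  exact hB _

theorem WW_bound [Nonempty V] (n : ℕ) (P : (Fin q → Bool) → V) :
    |WW q n P| ≤ (2 ^ q / (Fintype.card V : ℝ)) ^ (n / q) := by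
  have hq : 0 < q := Nat.pos_of_ne_zero (NeZero.ne q)
  set δ : ℝ := 2 ^ q / (Fintype.card V : ℝ) with hδ
  have hδ0 : 0 ≤ δ := by positivity
  -- full periods
  have hfull : ∀ a : ℕ, ∀ P : (Fin q → Bool) → V, |WW q (q * a) P| ≤ δ ^ a := by
    intro a
    induction a with
    | zero =>
      intro P
      rw [mul_zero, WW_zero, abs_one, pow_zero]
    | succ a ih =>
      have hper : ∀ r : ℕ, r < q → ∀ P : (Fin q → Bool) → V,
          |WW q (q * a + r + 1) P| ≤ δ ^ a * GG (r + 1) P := by
        intro r
        induction r with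
        | zero =>
          intro _ P
          have hcol : (Fin.ofNat q (q * a + 0)).val = 0 := by
            show (q * a + 0) % q = 0
            simp
          have := WW_step (q * a + 0) P (fun P' => δ ^ a * GG 0 P') (fun P' => by
            rw [mul_comm]
            exact mul_le_mul (ih P') (Ev_le_GG _ _) (abs_nonneg _) (by positivity))
          refine this.trans (le_of_eq ?_)
          simp only [Ex_mul_left]
          rw [Ex_GG 0 hq _ hcol]
        | succ r ihr =>
          intro hr P
          have hcol : (Fin.ofNat q (q * a + (r + 1))).val = r + 1 := by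
            show (q * a + (r + 1)) % q = r + 1
            rw [Nat.mul_add_mod]
            exact Nat.mod_eq_of_lt hr
          have := WW_step (q * a + (r + 1)) P (fun P' => δ ^ a * GG (r + 1) P') (fun P' => by
            have h1 := ihr (by omega) P'
            have h2 := Ev_abs_le_one (Fin.ofNat q (q * a + (r + 1))) P'
            calc _ ≤ 1 * |WW q (q * a + (r + 1)) P'| :=
                  mul_le_mul_of_nonneg_right h2 (abs_nonneg _)
              _ = |WW q (q * a + r + 1) P'| := by rw [one_mul, add_assoc]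
              _ ≤ _ := h1)
          refine this.trans (le_of_eq ?_)
          simp only [Ex_mul_left]
          rw [Ex_GG (r + 1) hr _ hcol]
      intro P
      have h1 := hper (q - 1) (by omega) P
      have h2 : q * a + (q - 1) + 1 = q * (a + 1) := by
        rw [mul_add, mul_one]
        omega
      rw [h2, Nat.sub_add_cancel hq] at h1
      refine h1.trans ?_
      rw [pow_succ]
      exact mul_le_mul_of_nonneg_left (GG_top P) (by positivity)
  -- the first incomplete period
  have hmon : ∀ r n : ℕ, ∀ b : ℝ, (∀ P : (Fin q → Bool) → V, |WW q n P| ≤ b) →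
      ∀ P : (Fin q → Bool) → V, |WW q (n + r) P| ≤ b := by
    intro r
    induction r with
    | zero => intro n b h P; exact h P
    | succ r ih =>
      intro n b h P
      have h1 := ih n b h
      have := WW_step (n + r) P (fun _ => b) (fun P' => by
        calc _ ≤ 1 * |WW q (n + r) P'| :=
              mul_le_mul_of_nonneg_right (Ev_abs_le_one _ _) (abs_nonneg _)
          _ ≤ b := by rw [one_mul]; exact h1 P')
      refine this.trans (le_of_eq ?_)
      rw [Ex_const, Ex_const]
  have h1 := hmon (n % q) (q * (n / q)) (δ ^ (n / q)) (hfull (n / q)) P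
  rwa [Nat.div_add_mod] at h1

end

end

end Pool.Agent.ACS
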